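import Pool.Agent.F3.NEF.Stm

/-!
# Block NEF, row NH: average over the good maps
-/

set_option autoImplicit false
set_option linter.unusedSectionVars false

namespace F3.NE

open Finset NWC NW F1 F1.Exact

variable {V : Type} [Fintype V] [DecidableEq V] {m : ℕ}

/-! ## Counting good maps -/

open Classical in
/-- good maps with two prescribed values -/
noncomputable def gm (Gd : (Fin m → V) → Prop) (i j : Fin m) (x y : V) :
    Finset (Fin m → V) :=
  univ.filter (fun ψ => Gd ψ ∧ ψ i = x ∧ ψ j = y)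

/-- number of good maps with two prescribed values, over all pairs of positions -/
noncomputable def cnt (Gd : (Fin m → V) → Prop) (x y : V) : ℕ :=
  ∑ q ∈ od m, (gm Gd q.1 q.2 x y).card

theorem cnt_comm (Gd : (Fin m → V) → Prop) (x y : V) :
    cnt Gd x y = cnt Gd y x := by
  unfold cnt
  refine Finset.sum_bij (fun q _ => (q.2, q.1)) ?_ ?_ ?_ ?_
  · intro q hq
    unfold od at hq ⊢
    rw [Finset.mem_filter] at hq ⊢
    exact ⟨Finset.mem_univ _, fun h => hq.2 h.symm⟩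
  · rintro ⟨a, b⟩ _ ⟨c, d⟩ _ h
    simp only [Prod.mk.injEq] at h
    simp [h.1, h.2]
  · rintro ⟨a, b⟩ hq
    refine ⟨(b, a), ?_, rfl⟩
    unfold od at hq ⊢
    rw [Finset.mem_filter] at hq ⊢
    exact ⟨Finset.mem_univ _, fun h => hq.2 h.symm⟩
  · rintro ⟨a, b⟩ _
    unfold gm
    congr 1
    ext ψ
    simp only [Finset.mem_filter, Finset.mem_univ, true_and]
    tauto

theorem pr_good_eq (Gd : (Fin m → V) → Prop) (i j : Fin m) (hij : i ≠ j) (x y : V) :
    Pr (prodW (pp i j x y)) (fun ψ => Gd ψ)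
      = ((gm Gd i j x y).card : ℝ) * (1 / (Fintype.card V : ℝ)) ^ (m - 2) := by
  classical
  unfold Pr gm
  rw [← nsmul_eq_mul, ← Finset.sum_const, Finset.sum_filter]
  refine Finset.sum_congr rfl fun ψ _ => ?_
  rw [prodW_pp i j hij]
  by_cases h1 : Gd ψ <;> by_cases h2 : ψ i = x ∧ ψ j = y <;> simp [h1, h2]

theorem cnt_mul (Gd : (Fin m → V) → Prop) (x y : V) :
    (cnt Gd x y : ℝ) * (1 / (Fintype.card V : ℝ)) ^ (m - 2)
      = ∑ q ∈ od m, Pr (prodW (pp q.1 q.2 x y)) (fun ψ => Gd ψ) := by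
  unfold cnt
  rw [Nat.cast_sum, Finset.sum_mul]
  refine Finset.sum_congr rfl fun q hq => ?_
  rw [pr_good_eq Gd q.1 q.2 (Finset.mem_filter.1 hq).2]

theorem cnt_le [Nonempty V] (hm : 2 ≤ m) (Gd : (Fin m → V) → Prop) (x y : V) :
    cnt Gd x y ≤ tot m (Fintype.card V) := by
  have hn : (0 : ℝ) < (Fintype.card V : ℝ) := by exact_mod_cast Fintype.card_pos
  have h1 : (cnt Gd x y : ℝ) * (1 / (Fintype.card V : ℝ)) ^ (m - 2)
      ≤ (tot m (Fintype.card V) : ℝ) * (1 / (Fintype.card V : ℝ)) ^ (m - 2) := by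
    rw [cnt_mul, tot_mul hm, ← card_od hm, ← nsmul_one]
    exact Finset.sum_le_card_nsmul _ _ _ fun q _ => pr_le_one (pw_prod (pw_pp q.1 q.2 x y)) _
  have h2 := le_of_mul_le_mul_right h1 (by positivity)
  exact_mod_cast h2

theorem le_cnt [Nonempty V] (hm : 2 ≤ m) (Gd : (Fin m → V) → Prop)
    (hbad : ∀ i j, i ≠ j → ∀ x y, Pr (prodW (pp i j x y)) (fun ψ => ¬ Gd ψ) ≤ 1 / (m : ℝ))
    (x y : V) :
    (m - 1) * tot m (Fintype.card V) ≤ m * cnt Gd x y := by
  have hn : (0 : ℝ) < (Fintype.card V : ℝ) := by exact_mod_cast Fintype.card_pos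
  have hm' : (2 : ℝ) ≤ m := by exact_mod_cast hm
  have h1 : (1 - 1 / (m : ℝ)) * ((tot m (Fintype.card V) : ℝ)
      * (1 / (Fintype.card V : ℝ)) ^ (m - 2))
      ≤ (cnt Gd x y : ℝ) * (1 / (Fintype.card V : ℝ)) ^ (m - 2) := by
    rw [cnt_mul, tot_mul hm, ← card_od hm, mul_comm, ← nsmul_eq_mul]
    refine Finset.card_nsmul_le_sum _ _ _ fun q hq => ?_
    have h2 := hbad q.1 q.2 (Finset.mem_filter.1 hq).2 x y
    rw [pr_not (pw_prod (pw_pp q.1 q.2 x y))] at h2
    linarith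
  rw [← mul_assoc] at h1
  have h2 := le_of_mul_le_mul_right h1 (by positivity)
  have h3 : ((m : ℝ) - 1) * (tot m (Fintype.card V) : ℝ) ≤ (m : ℝ) * (cnt Gd x y : ℝ) := by
    have h4 : ((m : ℝ) - 1) * (tot m (Fintype.card V) : ℝ)
        = (m : ℝ) * ((1 - 1 / (m : ℝ)) * (tot m (Fintype.card V) : ℝ)) := by
      field_simp
    rw [h4]
    exact mul_le_mul_of_nonneg_left h2 (by linarith)
  have h5 : (((m - 1 : ℕ) : ℝ)) = (m : ℝ) - 1 := by
    rw [Nat.cast_sub (by omega), Nat.cast_one]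
  have h6 : (((m - 1) * tot m (Fintype.card V) : ℕ) : ℝ) ≤ ((m * cnt Gd x y : ℕ) : ℝ) := by
    rw [Nat.cast_mul, Nat.cast_mul, h5]
    exact h3
  exact_mod_cast h6

/-- the demand -/
noncomputable def dem (Gd : (Fin m → V) → Prop) (x y : V) : ℝ :=
  (1 - 1 / (m : ℝ)) * (tot m (Fintype.card V) : ℝ) / (cnt Gd x y : ℝ)

theorem dem_comm (Gd : (Fin m → V) → Prop) (x y : V) : dem Gd x y = dem Gd y x := by
  unfold dem
  rw [cnt_comm Gd x y]

theorem dem_bounds [Nonempty V] (hm : 2 ≤ m) (Gd : (Fin m → V) → Prop) (x y : V)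
    (hc : (m - 1) * tot m (Fintype.card V) ≤ m * cnt Gd x y) :
    1 - 1 / (m : ℝ) ≤ dem Gd x y ∧ dem Gd x y ≤ 1 ∧ 0 < cnt Gd x y := by
  have hm' : (2 : ℝ) ≤ m := by exact_mod_cast hm
  have hm0 : (0 : ℝ) < m := by linarith
  have ht := tot_pos (V := V) hm
  have ht' : (0 : ℝ) < tot m (Fintype.card V) := by exact_mod_cast ht
  have hc0 : 0 < cnt Gd x y := by
    have h1 : 0 < (m - 1) * tot m (Fintype.card V) := Nat.mul_pos (by omega) ht
    have h2 : 0 < m * cnt Gd x y := lt_of_lt_of_le h1 hc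
    exact Nat.pos_of_mul_pos_left h2
  have hc0' : (0 : ℝ) < cnt Gd x y := by exact_mod_cast hc0
  have hu : (cnt Gd x y : ℝ) ≤ tot m (Fintype.card V) := by exact_mod_cast cnt_le hm Gd x y
  have hl : ((m : ℝ) - 1) * tot m (Fintype.card V) ≤ m * cnt Gd x y := by
    have h5 : (((m - 1 : ℕ) : ℝ)) = (m : ℝ) - 1 := by
      rw [Nat.cast_sub (by omega), Nat.cast_one]
    rw [← h5]
    exact_mod_cast hc
  have hq : 0 ≤ 1 - 1 / (m : ℝ) := by
    rw [sub_nonneg, div_le_one hm0]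
    linarith
  unfold dem
  refine ⟨?_, ?_, hc0⟩
  · rw [le_div_iff₀ hc0']
    exact mul_le_mul_of_nonneg_left hu hq
  · rw [div_le_one hc0']
    have h4 : (1 - 1 / (m : ℝ)) * (tot m (Fintype.card V) : ℝ)
        = (((m : ℝ) - 1) * tot m (Fintype.card V)) / m := by
      field_simp
    rw [h4, div_le_iff₀ hm0]
    linarith

/-! ## The average -/

theorem exact_ord [Nonempty V] (E : Finset (Sym2 V)) (B : Finset (Tri V))
    (Gd : (Fin m → V) → Prop) (hm : 2 ≤ m) (hE : NL E)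
    (hbad : ∀ i j, i ≠ j → ∀ x y, Pr (prodW (pp i j x y)) (fun ψ => ¬ Gd ψ) ≤ 1 / (m : ℝ))
    (hGB : ∀ ψ, Gd ψ → ∀ a b c, ∀ T ∈ B, T.1 ≠ {ψ a, ψ b, ψ c})
    (hdec : ∀ ψ, Gd ψ → ∀ d : V → V → ℝ, (∀ x y, d x y = d y x) →
      (∀ x y, |d x y - 1| ≤ 1 / (m : ℝ)) →
      ST.HasDec (gp E ψ) (fun i j => d (ψ i) (ψ j))) :
    ∃ W : V → V → V → ℝ, (∀ x y z, 0 ≤ W x y z) ∧
      (∀ x y z, W x y z ≤ 2 * (m : ℝ) / (Fintype.card V : ℝ)) ∧
      (∀ x y z, W x y z = W y x z) ∧ (∀ x y z, W x y z = W x z y) ∧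
      (∀ x y z, W x y z ≠ 0 → s(x, y) ∈ E ∧ s(y, z) ∈ E ∧ s(x, z) ∈ E) ∧
      (∀ x y z, W x y z ≠ 0 → ∀ T ∈ B, T.1 ≠ {x, y, z}) ∧
      ∀ x y, s(x, y) ∈ E → ∑ z, W x y z = 1 := by
  classical
  have hm' : (2 : ℝ) ≤ m := by exact_mod_cast hm
  have hn : (0 : ℝ) < (Fintype.card V : ℝ) := by exact_mod_cast Fintype.card_pos
  have hc : ∀ x y : V, (m - 1) * tot m (Fintype.card V) ≤ m * cnt Gd x y :=
    le_cnt hm Gd hbad
  have hex : ∀ ψ : Fin m → V, ∃ D : Fin m → Fin m → Fin m → ℝ,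
      (∀ i j k, 0 ≤ D i j k) ∧ (∀ i j k, D i j k ≤ 1) ∧
      (∀ i j k, D i j k = D j i k) ∧ (∀ i j k, D i j k = D i k j) ∧
      (∀ i j k, D i j k ≠ 0 → s(ψ i, ψ j) ∈ E ∧ s(ψ j, ψ k) ∈ E ∧ s(ψ i, ψ k) ∈ E) ∧
      (∀ i j k, D i j k ≠ 0 → Gd ψ) ∧
      (∀ i j, i ≠ j → ∑ k, D i j k = if Gd ψ then (gE E (ψ i) (ψ j) * dem Gd (ψ i) (ψ j)) else 0) := by
    intro ψ
    by_cases h : Gd ψ
    · obtain ⟨D, h1, h3, h4, h5', h6'⟩ := hdec ψ h (dem Gd) (dem_comm Gd) (fun x y => by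
        obtain ⟨q1, q2, -⟩ := dem_bounds hm Gd x y (hc x y)
        rw [abs_le]
        constructor <;> linarith)
      have hg1 : ∀ i j, gp E ψ i j = 1 → s(ψ i, ψ j) ∈ E := by
        intro i j hg
        unfold gp gE at hg
        by_contra h0
        rw [if_neg h0] at hg
        norm_num at hg
      have hgle : ∀ i j, gp E ψ i j * dem Gd (ψ i) (ψ j) ≤ 1 := by
        intro i j
        obtain ⟨q1, q2, -⟩ := dem_bounds hm Gd (ψ i) (ψ j) (hc _ _)
        unfold gp gE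
        split_ifs
        · rw [one_mul]; exact q2
        · rw [zero_mul]; exact zero_le_one
      have h2 : ∀ i j k, D i j k ≤ 1 := by
        intro i j k
        refine le_trans ?_ (hgle i j)
        rw [← h6' i j]
        exact Finset.single_le_sum (fun c _ => h1 i j c) (Finset.mem_univ k)
      have h5 : ∀ i j k, D i j k ≠ 0 → s(ψ i, ψ j) ∈ E ∧ s(ψ j, ψ k) ∈ E ∧ s(ψ i, ψ k) ∈ E := by
        intro i j k h0
        obtain ⟨q1, q2, q3⟩ := h5' i j k h0
        exact ⟨hg1 _ _ q1, hg1 _ _ q2, hg1 _ _ q3⟩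
      have h6 : ∀ i j, i ≠ j → ∑ k, D i j k = gE E (ψ i) (ψ j) * dem Gd (ψ i) (ψ j) :=
        fun i j _ => h6' i j
      exact ⟨D, h1, h2, h3, h4, h5, fun _ _ _ _ => h, fun i j hij => by rw [h6 i j hij, if_pos h]⟩
    · refine ⟨fun _ _ _ => 0, fun _ _ _ => le_rfl, fun _ _ _ => zero_le_one,
        fun _ _ _ => rfl, fun _ _ _ => rfl, fun _ _ _ h' => absurd rfl h',
        fun _ _ _ h' => absurd rfl h', fun i j _ => ?_⟩
      rw [if_neg h]
      simp
  choose D D0 D1 s12 s23 Ds Dg De using hex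
  have hdiag : ∀ (v : V), s(v, v) ∉ E := fun v h => hE _ h (by simp)
  have hD0 : ∀ ψ i k, D ψ i i k = 0 := by
    intro ψ i k
    by_contra h
    exact hdiag _ (Ds ψ i i k h).1
  have hD1 : ∀ ψ i j, D ψ i j i = 0 := by
    intro ψ i k
    by_contra h
    exact hdiag _ (Ds ψ i k i h).2.2
  have hD2 : ∀ ψ i j, D ψ i j j = 0 := by
    intro ψ i k
    by_contra h
    exact hdiag _ (Ds ψ i k k h).2.1
  have hq : (1 : ℝ) / 2 ≤ 1 - 1 / (m : ℝ) := by
    have : 1 / (m : ℝ) ≤ 1 / 2 := one_div_le_one_div_of_le (by norm_num) hm'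
    linarith
  have hq0 : (0 : ℝ) < 1 - 1 / (m : ℝ) := by linarith
  refine ⟨fun x y z => avgW D x y z / (1 - 1 / (m : ℝ)),
    fun x y z => div_nonneg (avgW_nonneg hm D D0 x y z) hq0.le, ?_, ?_, ?_, ?_, ?_, ?_⟩
  · intro x y z
    have h1 := avgW_le hm D hD0 hD1 hD2 D1 x y z
    show avgW D x y z / (1 - 1 / (m : ℝ)) ≤ _
    rw [div_le_iff₀ hq0]
    refine h1.trans ?_
    have h2 : 0 ≤ (m : ℝ) / (Fintype.card V : ℝ) := by positivity
    have h3 : 2 * (m : ℝ) / (Fintype.card V : ℝ) * (1 - 1 / (m : ℝ))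
        = (m : ℝ) / (Fintype.card V : ℝ) * (2 * (1 - 1 / (m : ℝ))) := by ring
    rw [h3]
    exact le_mul_of_one_le_right h2 (by linarith)
  · intro x y z
    show avgW D x y z / _ = avgW D y x z / _
    rw [avgW_symm12 D s12]
  · intro x y z
    show avgW D x y z / _ = avgW D x z y / _
    rw [avgW_symm23 D s23]
  · intro x y z h
    have h1 : avgW D x y z ≠ 0 := by
      intro h0
      apply h
      show avgW D x y z / _ = 0
      rw [h0, zero_div]
    obtain ⟨ψ, i, j, k, rfl, rfl, rfl, h2⟩ := avgW_supp D x y z h1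
    exact Ds ψ i j k h2
  · intro x y z h
    have h1 : avgW D x y z ≠ 0 := by
      intro h0
      apply h
      show avgW D x y z / _ = 0
      rw [h0, zero_div]
    obtain ⟨ψ, i, j, k, rfl, rfl, rfl, h2⟩ := avgW_supp D x y z h1
    exact fun T hT => hGB ψ (Dg ψ i j k h2) i j k T hT
  · intro x y hxy
    show ∑ z, avgW D x y z / _ = 1
    rw [← Finset.sum_div, div_eq_one_iff_eq hq0.ne', sum_avgW D hD0]
    have hpos : 0 < (m : ℝ) * ((m : ℝ) - 1) := mul_pos (by linarith) (by linarith)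
    rw [div_eq_iff hpos.ne']
    have h1 : ∀ q ∈ od m, Ex (prodW (pp q.1 q.2 x y)) (fun ψ => ∑ k, D ψ q.1 q.2 k)
        = Pr (prodW (pp q.1 q.2 x y)) (fun ψ => Gd ψ) * (gE E x y * dem Gd x y) := by
      rintro ⟨i, j⟩ hq
      have hij : i ≠ j := (Finset.mem_filter.1 hq).2
      simp only
      rw [pr_eq_ex, ← ex_mul_right]
      unfold Ex
      refine Finset.sum_congr rfl fun ψ _ => ?_
      show prodW (pp i j x y) ψ * (∑ k, D ψ i j k)
        = prodW (pp i j x y) ψ * ((if Gd ψ then (1 : ℝ) else 0) * (gE E x y * dem Gd x y))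
      rw [De ψ i j hij, prodW_pp i j hij]
      by_cases h3 : ψ i = x ∧ ψ j = y
      · rw [if_pos h3, h3.1, h3.2]
        congr 1
        by_cases h4 : Gd ψ
        · rw [if_pos h4, if_pos h4, one_mul]
        · rw [if_neg h4, if_neg h4, zero_mul]
      · rw [if_neg h3, zero_mul, zero_mul]
    have h2 : ∑ q ∈ od m, Ex (prodW (pp q.1 q.2 x y)) (fun ψ => ∑ k, D ψ q.1 q.2 k)
        = (1 - 1 / (m : ℝ)) * ((m : ℝ) * ((m : ℝ) - 1)) := by
      rw [Finset.sum_congr rfl h1, ← Finset.sum_mul, ← cnt_mul]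
      have h3 := (dem_bounds hm Gd x y (hc x y)).2.2
      have h3' : (cnt Gd x y : ℝ) ≠ 0 := by exact_mod_cast h3.ne'
      unfold dem gE
      rw [if_pos hxy, one_mul]
      rw [← tot_mul (V := V) hm]
      field_simp
    exact h2

end F3.NE

namespace F3.NE

open Finset NWC NW F1 F1.Exact

/-- row NH -/
theorem avg_st : AvgSt := by
  intro V _ _ _ m E B Gd hm hE hbad hGB hdec
  classical
  obtain ⟨W, W0, W1, s12, s23, Ws, WB, We⟩ := exact_ord E B Gd hm hE hbad hGB hdec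
  obtain ⟨w, h1, h2⟩ := exists_tri W s12 s23
  have hdiag : ∀ (v : V), s(v, v) ∉ E := fun v h => hE _ h (by simp)
  refine ⟨w, ?_, ?_, ?_, ?_⟩
  · intro T
    obtain ⟨x, y, z, -, -, -, -, h⟩ := h1 T
    rw [h]
    exact W0 x y z
  · intro T
    obtain ⟨x, y, z, -, -, -, -, h⟩ := h1 T
    rw [h]
    exact W1 x y z
  · intro T hT
    obtain ⟨x, y, z, hxy, hxz, hyz, h, h'⟩ := h1 T
    rw [h'] at hT
    refine ⟨?_, fun hTB => WB x y z hT T hTB h, trivial⟩
    obtain ⟨a, b, c⟩ := Ws x y z hT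
    rw [h, edg_triple hxy hyz hxz]
    intro e he
    rcases mem_tri.1 he with rfl | rfl | rfl
    · exact a
    · exact b
    · exact c
  · intro e he
    induction e using Sym2.ind with
    | _ x y =>
      have hxy : x ≠ y := by
        rintro rfl
        exact hdiag x he
      rw [← We x y he]
      have hz : ∑ z, W x y z = ∑ z ∈ univ.filter (fun z => z ≠ x ∧ z ≠ y), W x y z := by
        rw [Finset.sum_filter]
        refine Finset.sum_congr rfl fun z _ => ?_
        by_cases h : z ≠ x ∧ z ≠ y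
        · rw [if_pos h]
        · rw [if_neg h]
          by_contra h0
          obtain ⟨-, b, c⟩ := Ws x y z h0
          rcases not_and_or.1 h with h3 | h3
          · push Not at h3
            rw [h3] at c
            exact hdiag _ c
          · push Not at h3
            rw [h3] at b
            exact hdiag _ b
      rw [hz]
      symm
      refine Finset.sum_bij (fun z hz => (⟨{x, y, z}, Finset.card_eq_three.2 ⟨x, y, z, hxy,
        (Finset.mem_filter.1 hz).2.1.symm, (Finset.mem_filter.1 hz).2.2.symm, rfl⟩⟩ : Tri V))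
        ?_ ?_ ?_ ?_
      · intro z hz
        rw [Finset.mem_filter]
        refine ⟨Finset.mem_univ _, ?_⟩
        rw [mk_mem_edg]
        exact ⟨by simp, by simp, hxy⟩
      · intro z hz z' hz' h
        have h3 := congrArg Subtype.val h
        simp only at h3
        have h4 : z ∈ ({x, y, z'} : Finset V) := by rw [← h3]; simp
        simp only [Finset.mem_insert, Finset.mem_singleton] at h4
        have h5 := (Finset.mem_filter.1 hz).2
        rcases h4 with h4 | h4 | h4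
        · exact absurd h4 h5.1
        · exact absurd h4 h5.2
        · exact h4
      · intro T hT
        have h3 := (Finset.mem_filter.1 hT).2
        rw [mk_mem_edg] at h3
        obtain ⟨hx, hy, -⟩ := h3
        have h4 : ((T.1.erase x).erase y).card = 1 := by
          rw [Finset.card_erase_of_mem (Finset.mem_erase.2 ⟨hxy.symm, hy⟩),
            Finset.card_erase_of_mem hx, T.2]
        obtain ⟨z, hz⟩ := Finset.card_eq_one.1 h4
        have h5 : z ∈ (T.1.erase x).erase y := by rw [hz]; simp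
        have h6 : z ≠ y := Finset.ne_of_mem_erase h5
        have h7 : z ≠ x := Finset.ne_of_mem_erase (Finset.mem_of_mem_erase h5)
        refine ⟨z, Finset.mem_filter.2 ⟨Finset.mem_univ _, h7, h6⟩, ?_⟩
        apply Subtype.ext
        show ({x, y, z} : Finset V) = T.1
        rw [← Finset.insert_erase hx, ← Finset.insert_erase (Finset.mem_erase.2 ⟨hxy.symm, hy⟩),
          hz]
      · intro z hz
        have h3 := (Finset.mem_filter.1 hz).2
        exact (h2 _ x y z hxy h3.1.symm h3.2.symm rfl).symm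

end F3.NE
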