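import Pool.Agent.F3.NEF.Stm

/-!
# Block NEF, row NB: concentration of pair statistics
-/

set_option autoImplicit false
set_option linter.unusedSectionVars false

namespace F3.NE

open Finset NWC NW F1 F1.Exact

section

variable {V : Type} [Fintype V] [DecidableEq V] {m : ℕ}

theorem pw_pw [Nonempty V] (S : Finset (Fin m)) (ω : Fin m → V) (l : Fin m) : PW (pw S ω l) := by
  unfold pw
  split_ifs
  · exact pw_pin _
  · exact pw_unif

/-- the expectation of a pair statistic at two free coordinates -/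
theorem ex_pair [Nonempty V] (S : Finset (Fin m)) (ω : Fin m → V) (φ : V → V → ℝ) (i j : Fin m)
    (hij : i ≠ j) (hi : i ∉ S) (hj : j ∉ S) :
    Ex (prodW (pw S ω)) (fun ψ => φ (ψ i) (ψ j)) = (∑ x, ∑ y, φ x y) / nn V ^ 2 := by
  rw [ex_resample (pw_pw S ω) i]
  simp only [Function.update_self, Function.update_of_ne (Ne.symm hij)]
  rw [ex_coord (pw_pw S ω) j (fun b => Ex (pw S ω i) (fun a => φ a b))]
  unfold Ex pw
  rw [if_neg hi, if_neg hj]
  unfold unifW nn
  rw [Finset.sum_comm (f := fun x y => φ x y), Finset.sum_div]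
  refine Finset.sum_congr rfl fun b _ => ?_
  show 1 / (Fintype.card V : ℝ) * ∑ a, 1 / (Fintype.card V : ℝ) * φ a b
    = (∑ x, φ x b) / (Fintype.card V : ℝ) ^ 2
  rw [← Finset.mul_sum]
  ring

theorem ex_pair_abs [Nonempty V] (S : Finset (Fin m)) (ω : Fin m → V) (φ : V → V → ℝ)
    (hφ : ∀ x y, |φ x y| ≤ 1) (i j : Fin m) :
    |Ex (prodW (pw S ω)) (fun ψ => φ (ψ i) (ψ j)) - (∑ x, ∑ y, φ x y) / nn V ^ 2| ≤
      2 * ((if i ∈ S then 1 else 0) + (if j ∈ S then 1 else 0) + (if i = j then 1 else 0)) := by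
  by_cases h : i ≠ j ∧ i ∉ S ∧ j ∉ S
  · rw [ex_pair S ω φ i j h.1 h.2.1 h.2.2, sub_self, abs_zero, if_neg h.2.1, if_neg h.2.2,
      if_neg h.1]
    norm_num
  · have h1 : (1 : ℝ) ≤ (if i ∈ S then 1 else 0) + (if j ∈ S then 1 else 0)
        + (if i = j then 1 else 0) := by
      by_cases h2 : i = j
      · rw [if_pos h2]
        split_ifs <;> norm_num
      · by_cases h3 : i ∈ S
        · rw [if_pos h3]
          split_ifs <;> norm_num
        · have h4 : j ∈ S := by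
            by_contra h5
            exact h ⟨h2, h3, h5⟩
          rw [if_pos h4]
          split_ifs <;> norm_num
    have hn : (0 : ℝ) < nn V := by
      unfold nn
      exact_mod_cast Fintype.card_pos
    have h2 : |(∑ x, ∑ y, φ x y) / nn V ^ 2| ≤ 1 := by
      rw [abs_div, abs_of_pos (by positivity : (0 : ℝ) < nn V ^ 2), div_le_one (by positivity)]
      refine (Finset.abs_sum_le_sum_abs _ _).trans ?_
      have h3 : ∀ x : V, |∑ y, φ x y| ≤ nn V := by
        intro x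
        refine (Finset.abs_sum_le_sum_abs _ _).trans ?_
        refine (Finset.sum_le_sum fun y _ => hφ x y).trans (le_of_eq ?_)
        unfold nn
        simp
      refine (Finset.sum_le_sum fun x _ => h3 x).trans (le_of_eq ?_)
      rw [Finset.sum_const, Finset.card_univ, nsmul_eq_mul, sq]
      rfl
    have h3 : |Ex (prodW (pw S ω)) (fun ψ => φ (ψ i) (ψ j))| ≤ 1 := by
      rw [abs_le]
      exact ⟨const_le_ex (pw_prod (pw_pw S ω)) fun ψ => (abs_le.1 (hφ _ _)).1,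
        ex_le_const (pw_prod (pw_pw S ω)) fun ψ => (abs_le.1 (hφ _ _)).2⟩
    have h4 := abs_sub (Ex (prodW (pw S ω)) (fun ψ => φ (ψ i) (ψ j)))
      ((∑ x, ∑ y, φ x y) / nn V ^ 2)
    linarith

theorem ex_stat [Nonempty V] (S : Finset (Fin m)) (ω : Fin m → V) (φ : V → V → ℝ)
    (hφ : ∀ x y, |φ x y| ≤ 1) :
    |Ex (prodW (pw S ω)) (fun ψ => ∑ i, ∑ j, φ (ψ i) (ψ j))
      - (m : ℝ) ^ 2 * ((∑ x, ∑ y, φ x y) / nn V ^ 2)| ≤ 4 * (m : ℝ) * ((S.card : ℝ) + 1) := by
  have h1 : Ex (prodW (pw S ω)) (fun ψ => ∑ i, ∑ j, φ (ψ i) (ψ j))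
      - (m : ℝ) ^ 2 * ((∑ x, ∑ y, φ x y) / nn V ^ 2)
      = ∑ i : Fin m, ∑ j : Fin m, (Ex (prodW (pw S ω)) (fun ψ => φ (ψ i) (ψ j))
        - (∑ x, ∑ y, φ x y) / nn V ^ 2) := by
    rw [ex_sum]
    simp_rw [Finset.sum_sub_distrib, Finset.sum_const, Finset.card_univ, Fintype.card_fin,
      nsmul_eq_mul]
    rw [← sub_eq_zero]
    have h2 : ∀ i : Fin m, Ex (prodW (pw S ω)) (fun ψ => ∑ j, φ (ψ i) (ψ j))
        = ∑ j, Ex (prodW (pw S ω)) (fun ψ => φ (ψ i) (ψ j)) := fun i => ex_sum _ _ _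
    simp_rw [h2]
    ring
  rw [h1]
  refine (Finset.abs_sum_le_sum_abs _ _).trans ?_
  refine (Finset.sum_le_sum fun i _ => (Finset.abs_sum_le_sum_abs _ _).trans
    (Finset.sum_le_sum fun j _ => ex_pair_abs S ω φ hφ i j)).trans ?_
  have h3 : ∀ i : Fin m, ∑ j : Fin m, 2 * ((if i ∈ S then (1 : ℝ) else 0)
      + (if j ∈ S then 1 else 0) + (if i = j then 1 else 0))
      = 2 * ((m : ℝ) * (if i ∈ S then (1 : ℝ) else 0) + (S.card : ℝ) + 1) := by
    intro i
    rw [← Finset.mul_sum, Finset.sum_add_distrib, Finset.sum_add_distrib, Finset.sum_const,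
      Finset.card_univ, Fintype.card_fin, nsmul_eq_mul, Finset.sum_ite_eq, if_pos (mem_univ i)]
    congr 3
    simp
  rw [Finset.sum_congr rfl fun i _ => h3 i, ← Finset.mul_sum, Finset.sum_add_distrib,
    Finset.sum_add_distrib, ← Finset.mul_sum]
  simp only [Finset.sum_const, Finset.card_univ, Fintype.card_fin, nsmul_eq_mul, mul_one]
  have h4 : ∑ i : Fin m, (if i ∈ S then (1 : ℝ) else 0) = (S.card : ℝ) := by simp
  rw [h4]
  have h5 : (0 : ℝ) ≤ m := Nat.cast_nonneg m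
  nlinarith

theorem stat_update (φ : V → V → ℝ) (hφ : ∀ x y, |φ x y| ≤ 1) (l : Fin m) (ψ : Fin m → V)
    (a : V) :
    |∑ i, ∑ j, φ (Function.update ψ l a i) (Function.update ψ l a j)
      - ∑ i, ∑ j, φ (ψ i) (ψ j)| ≤ 4 * (m : ℝ) := by
  rw [← Finset.sum_sub_distrib]
  refine (Finset.abs_sum_le_sum_abs _ _).trans ?_
  have h1 : ∀ i : Fin m, |∑ j, φ (Function.update ψ l a i) (Function.update ψ l a j)
      - ∑ j, φ (ψ i) (ψ j)| ≤ ∑ j : Fin m, 2 * ((if i = l then (1 : ℝ) else 0)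
        + (if j = l then 1 else 0)) := by
    intro i
    rw [← Finset.sum_sub_distrib]
    refine (Finset.abs_sum_le_sum_abs _ _).trans (Finset.sum_le_sum fun j _ => ?_)
    have h2 := abs_sub (φ (Function.update ψ l a i) (Function.update ψ l a j)) (φ (ψ i) (ψ j))
    have h3 := hφ (Function.update ψ l a i) (Function.update ψ l a j)
    have h4 := hφ (ψ i) (ψ j)
    by_cases hi : i = l
    · rw [if_pos hi]
      split_ifs <;> linarith
    · by_cases hj : j = l
      · rw [if_pos hj, if_neg hi]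
        linarith
      · rw [if_neg hi, if_neg hj, Function.update_of_ne hi, Function.update_of_ne hj, sub_self,
          abs_zero]
        norm_num
  refine (Finset.sum_le_sum fun i _ => h1 i).trans (le_of_eq ?_)
  have h3 : ∀ i : Fin m, ∑ j : Fin m, 2 * ((if i = l then (1 : ℝ) else 0)
      + (if j = l then 1 else 0)) = 2 * ((m : ℝ) * (if i = l then (1 : ℝ) else 0) + 1) := by
    intro i
    rw [← Finset.mul_sum, Finset.sum_add_distrib, Finset.sum_const,
      Finset.card_univ, Fintype.card_fin, nsmul_eq_mul, Finset.sum_ite_eq', if_pos (mem_univ l)]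
  rw [Finset.sum_congr rfl fun i _ => h3 i, ← Finset.mul_sum, Finset.sum_add_distrib,
    ← Finset.mul_sum, Finset.sum_ite_eq', if_pos (mem_univ l)]
  simp only [Finset.sum_const, Finset.card_univ, Fintype.card_fin, nsmul_eq_mul, mul_one]
  ring

end

/-- row NB -/
theorem conc_st : ConcSt := by
  intro V _ _ _ m S ω φ δ hφ hδ hm
  have hS : (0 : ℝ) ≤ (S.card : ℝ) := Nat.cast_nonneg _
  have hm0 : (0 : ℝ) < (m : ℝ) := by
    by_contra h
    push Not at h
    nlinarith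
  have h1 := mcdiarmid_two (pw_pw S ω) (fun ψ => ∑ i, ∑ j, φ (ψ i) (ψ j))
    (fun _ => 4 * (m : ℝ)) (fun l ψ a => stat_update φ hφ l ψ a) (16 * (m : ℝ) ^ 3)
    (by positivity) (by
      rw [Finset.sum_const, Finset.card_univ, Fintype.card_fin, nsmul_eq_mul]
      apply le_of_eq
      ring) (δ * (m : ℝ) ^ 2 / 2) (by positivity)
  have h2 : (δ * (m : ℝ) ^ 2 / 2) ^ 2 / (2 * (16 * (m : ℝ) ^ 3)) = δ ^ 2 * (m : ℝ) / 128 := by
    field_simp
    ring
  rw [h2] at h1
  refine le_trans (pr_mono (pw_prod (pw_pw S ω)) ?_) h1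
  intro ψ hψ
  unfold Near at hψ
  push Not at hψ
  have h3 := ex_stat S ω φ hφ
  have h4 : 4 * (m : ℝ) * ((S.card : ℝ) + 1) ≤ δ * (m : ℝ) ^ 2 / 2 := by
    have := mul_le_mul_of_nonneg_left hm hm0.le
    nlinarith
  set f := ∑ i, ∑ j, φ (ψ i) (ψ j)
  set e := Ex (prodW (pw S ω)) (fun ψ => ∑ i, ∑ j, φ (ψ i) (ψ j))
  set c := (m : ℝ) ^ 2 * ((∑ x, ∑ y, φ x y) / nn V ^ 2)
  have h5 : |f - c| ≤ |f - e| + |e - c| := abs_sub_le f e c
  show δ * (m : ℝ) ^ 2 / 2 ≤ |f - e|
  linarith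

end F3.NE
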