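import Pool.Agent.F3.NEF.Stm

/-!
# Block NEF, row NF: the degrees of the samples (helper28)
-/

set_option autoImplicit false
set_option linter.unusedSectionVars false

namespace F3.NE

open Finset NWC NW F1 F1.Exact

private theorem gE_le {V : Type} [Fintype V] [DecidableEq V] (E : Finset (Sym2 V)) (x y : V) :
    0 ≤ 1 - gE E x y ∧ 1 - gE E x y ≤ 1 := by
  unfold gE
  split_ifs <;> norm_num

private theorem sum_gE {V : Type} [Fintype V] [DecidableEq V] (E : Finset (Sym2 V)) (x : V) :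
    ∑ y, (1 - gE E x y) = nn V - (NW.deg E x : ℝ) := by
  unfold gE nn
  rw [Finset.sum_sub_distrib, ← Finset.sum_filter]
  simp only [Finset.sum_const, Finset.card_univ, nsmul_eq_mul, mul_one]
  rfl

/-- row NF -/
theorem deg_st : DegSt := by
  classical
  intro V _ _ _ E η m hη hdeg hm i j x y
  have hpw := pw_pp i j x y
  have hm0 : (0 : ℝ) < m := by
    by_contra h
    have : η * (m : ℝ) ≤ 0 := mul_nonpos_of_nonneg_of_nonpos hη.le (not_lt.1 h)
    linarith
  have hn : (0 : ℝ) < nn V := by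
    unfold nn
    exact_mod_cast Fintype.card_pos
  set S : Fin m → Finset (Fin m) := fun k => univ.filter (fun l => l ≠ i ∧ l ≠ j ∧ l ≠ k) with hS
  have hScompl : ∀ k, (((S k)ᶜ).card : ℝ) ≤ 3 := by
    intro k
    have h2 : (S k)ᶜ ⊆ {i, j, k} := by
      intro l hl
      simp only [hS, Finset.mem_compl, Finset.mem_filter, Finset.mem_univ, true_and] at hl
      simp only [Finset.mem_insert, Finset.mem_singleton]
      tauto
    have h3 := (Finset.card_le_card h2).trans Finset.card_le_three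
    exact_mod_cast h3
  have hScard' : ∀ k, ((S k).card : ℝ) ≤ (m : ℝ) := by
    intro k
    have h1 := Finset.card_le_univ (S k)
    rw [Fintype.card_fin] at h1
    exact_mod_cast h1
  set F : Fin m → V → (Fin m → V) → Prop := fun k a ψ =>
    (1 / 4 + 2 * η) * (m : ℝ) - 3 < ∑ l ∈ S k, (1 - gE E a (ψ l)) with hF
  have hFk : ∀ k a, Pr (prodW (pp i j x y)) (F k a) ≤ Real.exp (-(η ^ 2 * (m : ℝ) / 8)) := by
    intro k a
    have h1 := hoeffding_upper hpw (S k) (fun _ v => 1 - gE E a v)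
      (fun _ v => (gE_le E a v).1) (fun _ v => (gE_le E a v).2)
      (m : ℝ) hm0 (hScard' k) (η * m / 2) (by positivity)
    have h2 : -((η * (m : ℝ) / 2) ^ 2 / (2 * (m : ℝ))) = -(η ^ 2 * (m : ℝ) / 8) := by
      field_simp
      ring
    rw [h2] at h1
    refine le_trans (pr_mono (pw_prod hpw) ?_) h1
    intro ψ hψ
    have h3 : ∑ l ∈ S k, Ex (pp i j x y l) (fun v => 1 - gE E a v)
        = ((S k).card : ℝ) * ((nn V - (NW.deg E a : ℝ)) / nn V) := by
      rw [← nsmul_eq_mul, ← Finset.sum_const]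
      refine Finset.sum_congr rfl fun l hl => ?_
      have hl' := (Finset.mem_filter.1 hl).2
      unfold Ex pp
      rw [if_neg hl'.1, if_neg hl'.2.1, ← sum_gE E a, Finset.sum_div]
      refine Finset.sum_congr rfl fun v _ => ?_
      unfold unifW nn
      ring
    rw [h3]
    have h4 : (nn V - (NW.deg E a : ℝ)) / nn V ≤ 1 / 4 + η := by
      rw [div_le_iff₀ hn]
      have := hdeg a
      linarith
    have h5 : ((S k).card : ℝ) * ((nn V - (NW.deg E a : ℝ)) / nn V) ≤ (m : ℝ) * (1 / 4 + η) :=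
      (mul_le_mul_of_nonneg_left h4 (by positivity)).trans
        (mul_le_mul_of_nonneg_right (hScard' k) (by positivity))
    have h6 : F k a ψ := hψ
    simp only [hF] at h6
    linarith
  have hmain : ∀ k, Pr (prodW (pp i j x y)) (fun ψ => F k (ψ k) ψ)
      ≤ Real.exp (-(η ^ 2 * (m : ℝ) / 8)) := by
    intro k
    refine NWC.pr_cond_le hpw k (fun a ψ => F k a ψ) ?_ _ (hFk k)
    intro a ψ b
    simp only [hF]
    have : ∑ l ∈ S k, (1 - gE E a (Function.update ψ k b l))
        = ∑ l ∈ S k, (1 - gE E a (ψ l)) := by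
      refine Finset.sum_congr rfl fun l hl => ?_
      rw [Function.update_of_ne (Finset.mem_filter.1 hl).2.2.2]
    rw [this]
  have h8 : Pr (prodW (pp i j x y))
      (fun ψ => ¬ ∀ k, ∑ l, (1 - gp E ψ k l) ≤ (1 / 4 + 2 * η) * (m : ℝ))
      ≤ Pr (prodW (pp i j x y)) (fun ψ => ∃ k, F k (ψ k) ψ) := by
    refine pr_mono (pw_prod hpw) ?_
    intro ψ hψ
    push Not at hψ
    obtain ⟨k, hk⟩ := hψ
    refine ⟨k, ?_⟩
    simp only [hF]
    have h9 : ∑ l, (1 - gp E ψ k l) = ∑ l ∈ S k, (1 - gE E (ψ k) (ψ l)) +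
        ∑ l ∈ (S k)ᶜ, (1 - gE E (ψ k) (ψ l)) :=
      (Finset.sum_add_sum_compl (S k) (fun l => 1 - gE E (ψ k) (ψ l))).symm
    have h10 : ∑ l ∈ (S k)ᶜ, (1 - gE E (ψ k) (ψ l)) ≤ ((S k)ᶜ).card • (1 : ℝ) :=
      Finset.sum_le_card_nsmul _ _ _ fun l _ => (gE_le E (ψ k) (ψ l)).2
    rw [nsmul_eq_mul, mul_one] at h10
    have h11 := hScompl k
    linarith
  refine h8.trans ((pr_exists_le' (pw_prod hpw) _).trans ?_)
  refine (Finset.sum_le_sum fun k _ => hmain k).trans (le_of_eq ?_)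
  rw [Finset.sum_const, Finset.card_univ, Fintype.card_fin, nsmul_eq_mul]

end F3.NE
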