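import Pool.Agent.F3.NEF.Stm

/-!
# Block NEF, row NE: the samples of a graph which is not near-extremal are not near-extremal
-/

set_option autoImplicit false
set_option linter.unusedSectionVars false

namespace F3.NE

open Finset NWC NW F1 F1.Exact

section

variable {V : Type} [Fintype V] [DecidableEq V] {m : ℕ}

theorem pw_pwE [Nonempty V] (S : Finset (Fin m)) (ω : Fin m → V) (l : Fin m) : PW (pw S ω l) := by
  unfold pw
  split_ifs
  · exact pw_pin _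
  · exact pw_unif

theorem gE_zo (E : Finset (Sym2 V)) (x y : V) : gE E x y = 0 ∨ gE E x y = 1 := by
  unfold gE
  split_ifs
  · exact Or.inr rfl
  · exact Or.inl rfl

theorem gE_symm (E : Finset (Sym2 V)) (x y : V) : gE E x y = gE E y x := by
  unfold gE
  rw [Sym2.eq_swap]

theorem tf_abs (E : Finset (Sym2 V)) (A : Finset V) (k : Fin 3) (x y : V) :
    |tf E A k x y| ≤ 1 := by
  have h := gE_zo E x y
  unfold tf
  split_ifs <;> rcases h with h | h <;> (try rw [h]) <;> norm_num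

/-- the bad event for the seeds `τ` with signs `sg` -/
def BadF (E : Finset (Sym2 V)) (δ : ℝ) {q : ℕ} (τ : Fin q → Fin m) (sg : Fin q → Bool)
    (w ψ : Fin m → V) : Prop := ∃ k, ¬ Near δ ψ (tf E (cl E sg (w ∘ τ)) k)

theorem pr_badF [Nonempty V] (hC : ConcSt) (E : Finset (Sym2 V)) (δ : ℝ) {q : ℕ}
    (τ : Fin q → Fin m) (sg : Fin q → Bool) (hδ : 0 < δ) (S : Finset (Fin m)) (ω' : Fin m → V)
    (hS : S.card ≤ 2) (hm : 8 * ((q : ℝ) + 3) ≤ δ * (m : ℝ)) :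
    Pr (prodW (pw (S ∪ univ.image τ) ω')) (BadF E δ τ sg ω')
      ≤ 6 * Real.exp (-(δ ^ 2 * (m : ℝ) / 128)) := by
  have hc : ((S ∪ univ.image τ).card : ℝ) ≤ (q : ℝ) + 2 := by
    have h1 : (S ∪ univ.image τ).card ≤ q + 2 := by
      have h2 := Finset.card_union_le S (univ.image τ)
      have h3 : (univ.image τ).card ≤ q := by
        have := Finset.card_image_le (s := univ) (f := τ)
        rwa [Finset.card_univ, Fintype.card_fin] at this
      omega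
    exact_mod_cast h1
  refine (pr_exists_le' (pw_prod (pw_pwE _ ω'))
    (fun k ψ => ¬ Near δ ψ (tf E (cl E sg (ω' ∘ τ)) k))).trans ?_
  refine (Finset.sum_le_sum fun k _ => hC V m (S ∪ univ.image τ) ω' (tf E (cl E sg (ω' ∘ τ)) k) δ
    (tf_abs E _ k) hδ (by linarith)).trans (le_of_eq ?_)
  rw [Finset.sum_const, Finset.card_univ, Fintype.card_fin, nsmul_eq_mul]
  push_cast
  ring

/-- a near-extremal sample is bad for some seeds -/
theorem exists_bad [Nonempty V] (E : Finset (Sym2 V)) (ρ δ δ2 : ℝ) (q : ℕ)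
    (hF : ∀ (V : Type) [Fintype V] [DecidableEq V] [Nonempty V] (E : Finset (Sym2 V)) (m : ℕ)
      (ψ : Fin m → V) (A : Finset V) (A' : Finset (Fin m)), NW.NL E → 0 < m →
      |(A'.card : ℝ) - (m : ℝ) / 2| ≤ δ * (m : ℝ) → ST.crs (gp E ψ) A' ≤ δ * (m : ℝ) ^ 2 →
      ((univ.filter (fun i => ∑ j, (1 - gp E ψ i j) < (1 / 4 - δ) * (m : ℝ))).card : ℝ)
        ≤ δ * (m : ℝ) →
      ((univ.filter (fun i => ¬ (i ∈ A' ↔ ψ i ∈ A))).card : ℝ) ≤ δ * (m : ℝ) →
      (∀ k, Near δ ψ (tf E A k)) → EX ρ E)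
    (hS : ∀ (m : ℕ) (g : Fin m → Fin m → ℝ) (A : Finset (Fin m)), 0 < m →
      (∀ x y, g x y = 0 ∨ g x y = 1) → (∀ x y, g x y = g y x) →
      ST.crs g A ≤ δ2 * (m : ℝ) ^ 2 →
      ((univ.filter (fun x => ∑ y, (1 - g x y) < (1 / 4 - δ2) * (m : ℝ))).card : ℝ)
        ≤ δ2 * (m : ℝ) →
      ∃ τ : Fin q → Fin m, ((univ.filter (fun i => ¬ (i ∈ A ↔
        0 < ∑ l, (if τ l ∈ A then (1 : ℝ) else -1) * (1 - g i (τ l))))).card : ℝ) ≤ δ * (m : ℝ))
    (hE : NW.NL E) (hEX : ¬ EX ρ E) (hm : 0 < m) (ψ : Fin m → V)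
    (h : ST.Ext (min δ δ2) (gp E ψ)) :
    ∃ x : (Fin q → Fin m) × (Fin q → Bool), BadF E δ x.1 x.2 ψ ψ := by
  classical
  have hm' : (0 : ℝ) < (m : ℝ) := by exact_mod_cast hm
  obtain ⟨A', h1, h2, h3⟩ := h
  rw [Fintype.card_fin] at h1 h2 h3
  have hl := min_le_left δ δ2
  have hr := min_le_right δ δ2
  have hmon : ∀ d : ℝ, min δ δ2 ≤ d →
      ((univ.filter (fun i => ∑ j, (1 - gp E ψ i j) < (1 / 4 - d) * (m : ℝ))).card : ℝ)
        ≤ d * (m : ℝ) := by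
    intro d hd
    have h4 : (univ.filter (fun i => ∑ j, (1 - gp E ψ i j) < (1 / 4 - d) * (m : ℝ))) ⊆
        univ.filter (fun i => ∑ j, (1 - gp E ψ i j) < (1 / 4 - min δ δ2) * (m : ℝ)) := by
      intro i hi
      rw [Finset.mem_filter] at hi ⊢
      refine ⟨hi.1, lt_of_lt_of_le hi.2 (mul_le_mul_of_nonneg_right (by linarith) hm'.le)⟩
    have h5 : ((univ.filter (fun i => ∑ j, (1 - gp E ψ i j) < (1 / 4 - d) * (m : ℝ))).card : ℝ)
        ≤ ((univ.filter (fun i => ∑ j, (1 - gp E ψ i j) <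
          (1 / 4 - min δ δ2) * (m : ℝ))).card : ℝ) := by
      exact_mod_cast Finset.card_le_card h4
    refine h5.trans (le_trans ?_ (mul_le_mul_of_nonneg_right hd hm'.le))
    refine le_trans ?_ h3
    exact_mod_cast Finset.card_le_card (fun i hi => by
      rw [Finset.mem_filter] at hi ⊢
      exact hi)
  obtain ⟨τ, hτ⟩ := hS m (gp E ψ) A' hm (fun x y => gE_zo E _ _) (fun x y => gE_symm E _ _)
    (h2.trans (mul_le_mul_of_nonneg_right hr (by positivity))) (hmon δ2 hr)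
  refine ⟨(τ, fun l => decide (τ l ∈ A')), ?_⟩
  unfold BadF
  by_contra hcon
  push Not at hcon
  apply hEX
  refine hF V E m ψ (cl E (fun l => decide (τ l ∈ A')) (ψ ∘ τ)) A' hE hm
    (h1.trans (mul_le_mul_of_nonneg_right hl hm'.le))
    (h2.trans (mul_le_mul_of_nonneg_right hl (by positivity))) (hmon δ hl) ?_ hcon
  refine le_trans (le_of_eq ?_) hτ
  congr 2
  apply Finset.filter_congr
  intro i _
  have h6 : (ψ i ∈ cl E (fun l => decide (τ l ∈ A')) (ψ ∘ τ)) ↔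
      0 < ∑ l, (if τ l ∈ A' then (1 : ℝ) else -1) * (1 - gp E ψ i (τ l)) := by
    unfold cl
    rw [Finset.mem_filter]
    simp only [Finset.mem_univ, true_and, decide_eq_true_eq, Function.comp_apply]
    exact Iff.rfl
  rw [h6]

end

/-- the number of seeds times the failure probability is small -/
theorem exists_m0 (q : ℕ) (δ : ℝ) (hδ : 0 < δ) : ∃ m₀ : ℕ, ∀ m : ℕ, m₀ ≤ m →
    0 < m ∧ 8 * ((q : ℝ) + 3) ≤ δ * (m : ℝ) ∧
    ((m : ℝ) ^ q * 2 ^ q) * (6 * Real.exp (-(δ ^ 2 * (m : ℝ) / 128))) ≤ 1 / (4 * (m : ℝ)) := by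
  set c : ℝ := δ ^ 2 / 128 with hc
  have hc0 : 0 < c := by positivity
  set D : ℝ := 24 * 2 ^ q * ((q + 2).factorial : ℝ) / c ^ (q + 2) with hD
  have hD0 : 0 < D := by positivity
  obtain ⟨m₀, hm₀⟩ := exists_nat_ge (1 + 8 * ((q : ℝ) + 3) / δ + D)
  refine ⟨m₀, fun m hm => ?_⟩
  have hm1 : (m₀ : ℝ) ≤ m := by exact_mod_cast hm
  have h8 : 0 ≤ 8 * ((q : ℝ) + 3) / δ := by positivity
  have hmp : (0 : ℝ) < m := by linarith
  refine ⟨by exact_mod_cast hmp, ?_, ?_⟩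
  · have h1 : 8 * ((q : ℝ) + 3) / δ ≤ m := by linarith
    rw [div_le_iff₀ hδ] at h1
    linarith
  · have h1 : D ≤ m := by linarith
    rw [hD, div_le_iff₀ (by positivity)] at h1
    have h2 : δ ^ 2 * (m : ℝ) / 128 = c * m := by rw [hc]; ring
    rw [h2, Real.exp_neg]
    have h3 := Real.pow_div_factorial_le_exp (c * m) (by positivity) (q + 2)
    rw [div_le_iff₀ (by positivity)] at h3
    have h4 : 24 * 2 ^ q * (m : ℝ) ^ (q + 1) ≤ Real.exp (c * m) := by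
      have h5 : (0 : ℝ) < ((q + 2).factorial : ℝ) := by positivity
      have h6 : 24 * 2 ^ q * (m : ℝ) ^ (q + 1) * ((q + 2).factorial : ℝ)
          ≤ Real.exp (c * m) * ((q + 2).factorial : ℝ) := by
        refine le_trans ?_ h3
        have h7 := mul_le_mul_of_nonneg_left h1 (by positivity : (0 : ℝ) ≤ (m : ℝ) ^ (q + 1))
        calc 24 * 2 ^ q * (m : ℝ) ^ (q + 1) * ((q + 2).factorial : ℝ)
            = (m : ℝ) ^ (q + 1) * (24 * 2 ^ q * ((q + 2).factorial : ℝ)) := by ring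
          _ ≤ (m : ℝ) ^ (q + 1) * ((m : ℝ) * c ^ (q + 2)) := h7
          _ = (c * m) ^ (q + 2) := by ring
      exact le_of_mul_le_mul_right h6 h5
    rw [le_div_iff₀ (by positivity)]
    have h9 : (m : ℝ) ^ q * 2 ^ q * (6 * (Real.exp (c * m))⁻¹) * (4 * (m : ℝ))
        = (24 * 2 ^ q * (m : ℝ) ^ (q + 1)) / Real.exp (c * m) := by
      rw [div_eq_mul_inv]
      ring
    rw [h9, div_le_one (Real.exp_pos _)]
    exact h4

/-- row NE -/
theorem ext_st (hP : PinSt) (hC : ConcSt) (hS : SeedSt) (hF : FixSt) : ExtSt := by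
  intro ρ hρ
  obtain ⟨δ, hδ, hF⟩ := hF ρ hρ
  obtain ⟨q, δ2, hδ2, hS⟩ := hS δ hδ
  obtain ⟨m₀, hm₀⟩ := exists_m0 q δ hδ
  refine ⟨min δ δ2, lt_min hδ hδ2, m₀, ?_⟩
  intro m hm V _ _ _ E hE hEX S ω hS2
  obtain ⟨hmp, hm8, hmm⟩ := hm₀ m hm
  have hpw := pw_prod (pw_pwE S ω)
  refine le_trans (pr_mono hpw (fun ψ hψ => exists_bad E ρ δ δ2 q hF hS hE hEX hmp ψ hψ)) ?_
  refine (pr_exists_le' hpw (fun x : (Fin q → Fin m) × (Fin q → Bool) =>
    fun ψ => BadF E δ x.1 x.2 ψ ψ)).trans ?_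
  refine (Finset.sum_le_sum fun x _ => hP V m S (univ.image x.1) ω (BadF E δ x.1 x.2)
    (6 * Real.exp (-(δ ^ 2 * (m : ℝ) / 128))) ?_ ?_).trans ?_
  · intro ω₁ ω₂ ψ h
    have h1 : ω₁ ∘ x.1 = ω₂ ∘ x.1 := by
      funext l
      exact h (x.1 l) (Finset.mem_image_of_mem _ (Finset.mem_univ l))
    unfold BadF
    rw [h1]
  · intro ω' _
    exact pr_badF hC E δ x.1 x.2 hδ S ω' hS2 hm8
  · refine le_trans (le_of_eq ?_) hmm
    rw [Finset.sum_const, Finset.card_univ, Fintype.card_prod, Fintype.card_fun, Fintype.card_fun,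
      Fintype.card_fin, Fintype.card_fin, Fintype.card_bool, nsmul_eq_mul]
    push_cast
    ring

end F3.NE
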