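import Pool.Agent.F3.NEF.Stm

/-!
# Block NEF, row D: a representative sample of near-extremal kind
-/

set_option autoImplicit false
set_option linter.unusedSectionVars false

namespace F3.NE

open Finset NWC NW F1 F1.Exact

section

variable {V : Type} [Fintype V] [DecidableEq V]

theorem fx_sum_pair (a b : V) (hab : a ≠ b) (c : ℝ) :
    ∑ x, ∑ y, (if s(x, y) = s(a, b) then c else 0) = 2 * c := by
  have h : ∀ x y : V, (if s(x, y) = s(a, b) then c else 0) =
      (if x = a then (if y = b then c else 0) else 0) +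
        (if x = b then (if y = a then c else 0) else 0) := by
    intro x y
    by_cases h1 : x = a
    · subst h1
      by_cases h2 : y = b
      · subst h2
        simp [hab]
      · have h3 : ¬ (s(x, y) = s(x, b)) := by
          rw [Sym2.eq_iff]
          rintro (⟨_, h⟩ | ⟨h, _⟩)
          · exact h2 h
          · exact hab h
        rw [if_neg h3, if_pos rfl, if_neg h2, if_neg hab]
        simp
    · by_cases h2 : x = b
      · subst h2
        by_cases h3 : y = a
        · subst h3
          rw [if_pos Sym2.eq_swap, if_neg h1, if_pos rfl, if_pos rfl, zero_add]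
        · have h4 : ¬ (s(x, y) = s(a, x)) := by
            rw [Sym2.eq_iff]
            rintro (⟨h, _⟩ | ⟨_, h⟩)
            · exact h1 h
            · exact h3 h
          rw [if_neg h4, if_neg h1, if_pos rfl, if_neg h3, zero_add]
      · have h4 : ¬ (s(x, y) = s(a, b)) := by
          rw [Sym2.eq_iff]
          rintro (⟨h, _⟩ | ⟨h, _⟩)
          · exact h1 h
          · exact h2 h
        rw [if_neg h4, if_neg h1, if_neg h2, zero_add]
  simp only [h, Finset.sum_add_distrib]
  have e1 : ∀ u v : V, ∑ x, ∑ y, (if x = u then (if y = v then c else 0) else 0) = c := by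
    intro u v
    rw [Finset.sum_eq_single u]
    · simp
    · intro x _ hx
      simp [hx]
    · intro hu
      exact absurd (Finset.mem_univ u) hu
  rw [e1, e1]
  ring

theorem fx_sum_pairs (E : Finset (Sym2 V)) (hE : NW.NL E) (f : Sym2 V → ℝ) :
    ∑ x, ∑ y, (if s(x, y) ∈ E then f s(x, y) else 0) = 2 * ∑ e ∈ E, f e := by
  induction E using Finset.induction_on with
  | empty => simp
  | insert e E he ih =>
    have hE' : NW.NL E := fun e' h => hE e' (Finset.mem_insert_of_mem h)
    have hed : ¬ e.IsDiag := hE e (Finset.mem_insert_self e E)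
    rw [Finset.sum_insert he, mul_add, ← ih hE']
    have h : ∀ x y : V, (if s(x, y) ∈ insert e E then f s(x, y) else 0) =
        (if s(x, y) = e then f e else 0) + (if s(x, y) ∈ E then f s(x, y) else 0) := by
      intro x y
      by_cases h1 : s(x, y) = e
      · rw [if_pos (by rw [h1]; exact Finset.mem_insert_self e E), if_pos h1, if_neg (by rwa [h1]),
          add_zero, h1]
      · rw [if_neg h1, zero_add]
        by_cases h2 : s(x, y) ∈ E
        · rw [if_pos h2, if_pos (Finset.mem_insert_of_mem h2)]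
        · rw [if_neg h2, if_neg]
          intro h3
          rcases Finset.mem_insert.1 h3 with h4 | h4
          · exact h1 h4
          · exact h2 h4
    simp only [h, Finset.sum_add_distrib]
    congr 1
    induction e using Sym2.ind with
    | _ a b => exact fx_sum_pair a b (fun h => hed (by rw [h]; exact Sym2.mk_isDiag_iff.2 rfl)) _

theorem fx_gE_symm (E : Finset (Sym2 V)) (x y : V) : gE E x y = gE E y x := by
  unfold gE
  rw [Sym2.eq_swap]

theorem fx_gE_nonneg (E : Finset (Sym2 V)) (x y : V) : 0 ≤ gE E x y := by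
  unfold gE
  split_ifs <;> norm_num

theorem fx_gE_le (E : Finset (Sym2 V)) (x y : V) : gE E x y ≤ 1 := by
  unfold gE
  split_ifs <;> norm_num

/-- the weight of a cut -/
theorem fx_gam (E : Finset (Sym2 V)) (hE : NW.NL E) (A : Finset V) :
    ((∑ e ∈ E, gam (fun v => decide (v ∈ A)) e : ℤ) : ℝ) =
      ∑ x, ∑ y, gE E x y - 3 * ∑ x, ∑ y, (if x ∈ A ∧ y ∉ A then gE E x y else 0) := by
  have h1 := fx_sum_pairs E hE (fun e => ((gam (fun v => decide (v ∈ A)) e : ℤ) : ℝ))
  have h2 : ∀ x y : V, (if s(x, y) ∈ E then ((gam (fun v => decide (v ∈ A)) s(x, y) : ℤ) : ℝ)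
      else 0) = 2 * gE E x y - 3 * (if x ∈ A ∧ y ∉ A then gE E x y else 0) -
        3 * (if y ∈ A ∧ x ∉ A then gE E y x else 0) := by
    intro x y
    have h3 : Int (fun v => decide (v ∈ A)) s(x, y) ↔ (x ∈ A ↔ y ∈ A) := by
      unfold Int
      constructor
      · intro h
        have := h x (by simp) y (by simp)
        simpa using this
      · intro h u hu v hv
        rcases Sym2.mem_iff.1 hu with rfl | rfl <;> rcases Sym2.mem_iff.1 hv with rfl | rfl <;>
          simp [h]
    rw [fx_gE_symm E y x]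
    unfold gE gam
    by_cases he : s(x, y) ∈ E
    · simp only [if_pos he]
      by_cases hx : x ∈ A <;> by_cases hy : y ∈ A
      · rw [if_pos (h3.2 (by tauto))]
        simp [hx, hy]
      · rw [if_neg (fun h => by have := h3.1 h; tauto)]
        simp [hx, hy]
        norm_num
      · rw [if_neg (fun h => by have := h3.1 h; tauto)]
        simp [hx, hy]
        norm_num
      · rw [if_pos (h3.2 (by tauto))]
        simp [hx, hy]
    · simp [if_neg he]
  simp only [h2, Finset.sum_sub_distrib, ← Finset.mul_sum] at h1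
  have h4 : ∑ x, ∑ y, (if y ∈ A ∧ x ∉ A then gE E y x else 0) =
      ∑ x, ∑ y, (if x ∈ A ∧ y ∉ A then gE E x y else 0) := Finset.sum_comm
  rw [h4] at h1
  push_cast
  linarith

theorem fx_cross_card (A : Finset V) : ∑ x, ∑ y, (if x ∈ A ∧ y ∉ A then (1 : ℝ) else 0) =
    (A.card : ℝ) * (nn V - A.card) := by
  have h : ∀ x y : V, (if x ∈ A ∧ y ∉ A then (1 : ℝ) else 0) =
      (if x ∈ A then 1 else 0) * (1 - (if y ∈ A then 1 else 0)) := by
    intro x y
    by_cases hx : x ∈ A <;> by_cases hy : y ∈ A <;> simp [hx, hy]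
  simp only [h, ← Finset.mul_sum, ← Finset.sum_mul, Finset.sum_sub_distrib]
  rw [Finset.sum_ite_mem, Finset.univ_inter, Finset.sum_const, Finset.sum_const, nsmul_eq_mul,
    nsmul_eq_mul, mul_one, mul_one, nn, Finset.card_univ]

theorem fx_card_ind {ι : Type} [Fintype ι] (P : ι → Prop) [DecidablePred P] :
    ∑ i, (if P i then (1 : ℝ) else 0) = ((univ.filter P).card : ℝ) := by
  rw [Finset.sum_boole]

end

theorem fix_st : FixSt := by
  intro ρ hρ
  refine ⟨min (ρ / 60) (1 / 60), by positivity, ?_⟩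
  intro V _ _ _ E m ψ A A' hE hm h1 h2 h3 h4 h5
  set δ := min (ρ / 60) (1 / 60) with hδ
  have hδ0 : 0 < δ := by positivity
  have hδ1 : δ ≤ ρ / 60 := min_le_left _ _
  have hδ2 : δ ≤ 1 / 60 := min_le_right _ _
  have hm' : (0 : ℝ) < m := by exact_mod_cast hm
  have hn : 0 < nn V := by
    unfold nn
    exact_mod_cast Fintype.card_pos
  set g := gp E ψ with hg
  have hgs : ∀ i j, g i j = gE E (ψ i) (ψ j) := fun i j => rfl
  have hg1 : ∀ i j, 0 ≤ 1 - g i j := fun i j => by
    rw [hgs]
    linarith [fx_gE_le E (ψ i) (ψ j)]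
  have hg0 : ∀ i j, 1 - g i j ≤ 1 := fun i j => by
    rw [hgs]
    linarith [fx_gE_nonneg E (ψ i) (ψ j)]
  -- number of misclassified indices
  set bad : Fin m → ℝ := fun i => if ¬ (i ∈ A' ↔ ψ i ∈ A) then 1 else 0 with hbad
  have hb0 : ∀ i, 0 ≤ bad i := fun i => by
    simp only [hbad]
    split_ifs <;> norm_num
  have hbs : ∑ i, bad i ≤ δ * m := by
    have := fx_card_ind (fun i => ¬ (i ∈ A' ↔ ψ i ∈ A))
    simp only [hbad]
    rw [this]
    exact h4
  -- the size of `A`
  have n0 := h5 0
  have n1 := h5 1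
  have n2 := h5 2
  unfold Near at n0 n1 n2
  have t0 : ∀ x y : V, tf E A 0 x y = if x ∈ A then 1 else 0 := fun x y => by
    unfold tf
    rw [if_pos rfl]
  have t1 : ∀ x y : V, tf E A 1 x y = if x ∈ A ∧ y ∉ A then 1 - gE E x y else 0 := fun x y => by
    unfold tf
    rw [if_neg (by decide), if_pos rfl]
  have t2 : ∀ x y : V, tf E A 2 x y = 1 - gE E x y := fun x y => by
    unfold tf
    rw [if_neg (by decide), if_neg (by decide)]
  simp only [t0] at n0
  simp only [t1] at n1
  simp only [t2] at n2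
  have c0 : ∑ i : Fin m, ∑ _j : Fin m, (if ψ i ∈ A then (1 : ℝ) else 0) =
      m * ∑ i : Fin m, (if ψ i ∈ A then (1 : ℝ) else 0) := by
    rw [Finset.mul_sum]
    refine Finset.sum_congr rfl fun i _ => ?_
    rw [Finset.sum_const, Finset.card_univ, Fintype.card_fin, nsmul_eq_mul]
  have c0' : ∑ x : V, ∑ _y : V, (if x ∈ A then (1 : ℝ) else 0) = nn V * (A.card : ℝ) := by
    have : ∀ x : V, ∑ _y : V, (if x ∈ A then (1 : ℝ) else 0) =
        nn V * (if x ∈ A then (1 : ℝ) else 0) := by
      intro x
      rw [Finset.sum_const, Finset.card_univ, nsmul_eq_mul]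
      rfl
    simp only [this, ← Finset.mul_sum]
    rw [Finset.sum_ite_mem, Finset.univ_inter, Finset.sum_const, nsmul_eq_mul, mul_one]
  rw [c0, c0'] at n0
  set a' := ∑ i : Fin m, (if ψ i ∈ A then (1 : ℝ) else 0) with ha'
  have d1 : |a' - (A'.card : ℝ)| ≤ δ * m := by
    have hc : (A'.card : ℝ) = ∑ i : Fin m, (if i ∈ A' then (1 : ℝ) else 0) := by
      rw [Finset.sum_ite_mem, Finset.univ_inter, Finset.sum_const, nsmul_eq_mul, mul_one]
    rw [hc, ha', ← Finset.sum_sub_distrib]
    refine (Finset.abs_sum_le_sum_abs _ _).trans ((Finset.sum_le_sum fun i _ => ?_).trans hbs)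
    simp only [hbad]
    by_cases u1 : i ∈ A' <;> by_cases u2 : ψ i ∈ A <;> simp [u1, u2]
  have e0 : (m : ℝ) ^ 2 * (nn V * (A.card : ℝ) / nn V ^ 2) = m ^ 2 * ((A.card : ℝ) / nn V) := by
    congr 1
    field_simp
  rw [e0] at n0
  set r := (A.card : ℝ) / nn V with hr
  have hAr : (A.card : ℝ) = r * nn V := by
    rw [hr]
    field_simp
  have d2 : |a' - m * r| ≤ δ * m := by
    have : (m : ℝ) * a' - m ^ 2 * r = m * (a' - m * r) := by ring
    rw [this, abs_mul, abs_of_pos hm'] at n0
    have h6 : (m : ℝ) * |a' - m * r| ≤ m * (δ * m) := by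
      calc (m : ℝ) * |a' - m * r| ≤ δ * m ^ 2 := n0
        _ = m * (δ * m) := by ring
    exact le_of_mul_le_mul_left h6 hm'
  have d3 : |r - 1 / 2| ≤ 3 * δ := by
    have h6 : |(m : ℝ) * (r - 1 / 2)| ≤ m * (3 * δ) := by
      rw [abs_le] at d1 d2 h1 ⊢
      constructor <;> linarith [d1.1, d1.2, d2.1, d2.2, h1.1, h1.2]
    rw [abs_mul, abs_of_pos hm'] at h6
    exact le_of_mul_le_mul_left h6 hm'
  -- the missing pairs across
  set M := ∑ x, ∑ y, (if x ∈ A ∧ y ∉ A then 1 - gE E x y else 0) with hM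
  have d4 : ∑ i : Fin m, ∑ j : Fin m,
      (if ψ i ∈ A ∧ ψ j ∉ A then 1 - gE E (ψ i) (ψ j) else 0) ≤ 3 * δ * m ^ 2 := by
    have hp : ∀ i j : Fin m, (if ψ i ∈ A ∧ ψ j ∉ A then 1 - gE E (ψ i) (ψ j) else 0) ≤
        (if i ∈ A' ∧ j ∉ A' then 1 - g i j else 0) + bad i + bad j := by
      intro i j
      have := hg1 i j
      have h7 := hg0 i j
      have hbi := hb0 i
      have hbj := hb0 j
      rw [← hgs i j]
      by_cases u : (i ∈ A' ↔ ψ i ∈ A)
      · by_cases v : (j ∈ A' ↔ ψ j ∈ A)
        · simp only [u, v]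
          linarith
        · have : bad j = 1 := by
            simp only [hbad]
            rw [if_pos v]
          rw [this]
          split_ifs <;> linarith
      · have : bad i = 1 := by
          simp only [hbad]
          rw [if_pos u]
        rw [this]
        split_ifs <;> linarith
    have hcr : ∑ i : Fin m, ∑ j : Fin m, (if i ∈ A' ∧ j ∉ A' then 1 - g i j else 0) =
        ST.crs g A' := by
      unfold ST.crs
      rw [← Finset.sum_filter_add_sum_filter_not univ (fun i => i ∈ A')]
      rw [Finset.filter_mem_eq_inter, Finset.univ_inter]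
      rw [Finset.sum_eq_zero (s := univ.filter (fun i => i ∉ A'))]
      · rw [add_zero]
        refine Finset.sum_congr rfl fun i hi => ?_
        rw [← Finset.sum_filter_add_sum_filter_not univ (fun j => j ∉ A')]
        rw [Finset.sum_eq_zero (s := univ.filter (fun j => ¬ (j ∉ A')))]
        · rw [add_zero]
          refine Finset.sum_congr (by ext j; simp) fun j hj => ?_
          rw [if_pos ⟨hi, by simpa using hj⟩]
        · intro j hj
          rw [if_neg]
          intro h
          exact (Finset.mem_filter.1 hj).2 h.2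
      · intro i hi
        refine Finset.sum_eq_zero fun j _ => ?_
        rw [if_neg]
        intro h
        exact (Finset.mem_filter.1 hi).2 h.1
    calc _ ≤ ∑ i : Fin m, ∑ j : Fin m,
          ((if i ∈ A' ∧ j ∉ A' then 1 - g i j else 0) + bad i + bad j) :=
        Finset.sum_le_sum fun i _ => Finset.sum_le_sum fun j _ => hp i j
      _ = ST.crs g A' + m * ∑ i, bad i + m * ∑ j, bad j := by
        simp only [Finset.sum_add_distrib]
        rw [hcr]
        congr 1
        · congr 1
          rw [Finset.mul_sum]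
          refine Finset.sum_congr rfl fun i _ => ?_
          rw [Finset.sum_const, Finset.card_univ, Fintype.card_fin, nsmul_eq_mul]
        · rw [Finset.sum_const, Finset.card_univ, Fintype.card_fin, nsmul_eq_mul]
      _ ≤ 3 * δ * m ^ 2 := by
        have := mul_le_mul_of_nonneg_left hbs hm'.le
        linarith
  have hMn : M ≤ 4 * δ * nn V ^ 2 := by
    have h6 := (abs_le.1 n1).1
    have h7 : (m : ℝ) ^ 2 * (M / nn V ^ 2) ≤ m ^ 2 * (4 * δ) := by linarith
    have h8 := le_of_mul_le_mul_left h7 (by positivity)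
    rwa [div_le_iff₀ (by positivity)] at h8
  -- the degrees
  set N2 := ∑ x, ∑ y, (1 - gE E x y) with hN2
  have d5 : (1 / 4 - 2 * δ) * (m : ℝ) ^ 2 ≤ ∑ i : Fin m, ∑ j : Fin m,
      (1 - gE E (ψ i) (ψ j)) := by
    set low : Fin m → ℝ := fun i => if ∑ j, (1 - g i j) < (1 / 4 - δ) * (m : ℝ) then 1 else 0
      with hlow
    have hls : ∑ i, low i ≤ δ * m := by
      have := fx_card_ind (fun i => ∑ j, (1 - g i j) < (1 / 4 - δ) * (m : ℝ))
      simp only [hlow]
      rw [this]
      exact h3
    have hp : ∀ i : Fin m, (1 / 4 - δ) * m * (1 - low i) ≤ ∑ j : Fin m,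
        (1 - gE E (ψ i) (ψ j)) := by
      intro i
      by_cases u : ∑ j, (1 - g i j) < (1 / 4 - δ) * (m : ℝ)
      · have : low i = 1 := by
          simp only [hlow]
          rw [if_pos u]
        rw [this, sub_self, mul_zero]
        exact Finset.sum_nonneg fun j _ => hg1 i j
      · have : low i = 0 := by
          simp only [hlow]
          rw [if_neg u]
        rw [this, sub_zero, mul_one]
        exact not_lt.1 u
    have h6 : ∑ i : Fin m, (1 / 4 - δ) * m * (1 - low i) =
        (1 / 4 - δ) * m * (m - ∑ i, low i) := by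
      rw [← Finset.mul_sum, Finset.sum_sub_distrib, Finset.sum_const, Finset.card_univ,
        Fintype.card_fin, nsmul_eq_mul, mul_one]
    have h7 : (1 / 4 - δ) * m * (m - δ * m) ≤ (1 / 4 - δ) * m * (m - ∑ i, low i) := by
      refine mul_le_mul_of_nonneg_left (by linarith) ?_
      have : 0 ≤ 1 / 4 - δ := by linarith
      positivity
    have h8 : (1 / 4 - 2 * δ) * (m : ℝ) ^ 2 ≤ (1 / 4 - δ) * m * (m - δ * m) := by
      have : (1 / 4 - δ) * m * (m - δ * m) - (1 / 4 - 2 * δ) * (m : ℝ) ^ 2 =
          (3 / 4 * δ + δ ^ 2) * m ^ 2 := by ring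
      have : 0 ≤ (3 / 4 * δ + δ ^ 2) * (m : ℝ) ^ 2 := by positivity
      linarith
    calc _ ≤ _ := h8
      _ ≤ _ := h7
      _ = _ := h6.symm
      _ ≤ _ := Finset.sum_le_sum fun i _ => hp i
  have hNn : (1 / 4 - 3 * δ) * nn V ^ 2 ≤ N2 := by
    have h6 := (abs_le.1 n2).2
    have h7 : (m : ℝ) ^ 2 * (1 / 4 - 3 * δ) ≤ m ^ 2 * (N2 / nn V ^ 2) := by linarith
    have h8 := le_of_mul_le_mul_left h7 (by positivity)
    rwa [le_div_iff₀ (by positivity)] at h8
  -- conclusion
  refine ⟨fun v => decide (v ∈ A), ?_, ?_, ?_⟩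
  · have : Sd (fun v => decide (v ∈ A)) true = A := by
      ext v
      simp [Sd]
    rw [this, hAr]
    have : r * nn V - nn V / 2 = (r - 1 / 2) * nn V := by ring
    rw [this, abs_mul, abs_of_pos hn]
    refine mul_le_mul_of_nonneg_right ?_ hn.le
    linarith
  · have h6 : ((((Sd (fun v => decide (v ∈ A)) true) ×ˢ (Sd (fun v => decide (v ∈ A)) false)).filter
        (fun p => s(p.1, p.2) ∉ E)).card : ℝ) = M := by
      rw [← Finset.sum_boole, Finset.sum_product, hM]
      unfold Sd
      rw [Finset.sum_filter]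
      refine Finset.sum_congr rfl fun x _ => ?_
      rw [Finset.sum_filter]
      by_cases hx : x ∈ A
      · rw [if_pos (by simpa using hx)]
        refine Finset.sum_congr rfl fun y _ => ?_
        by_cases hy : y ∈ A
        · simp [hy]
        · by_cases he : s(x, y) ∈ E <;> simp [hx, hy, he, gE]
      · rw [if_neg (by simpa using hx)]
        rw [Finset.sum_eq_zero]
        intro y _
        simp [hx]
    rw [h6]
    have h7 : δ * nn V ^ 2 ≤ ρ / 60 * nn V ^ 2 := mul_le_mul_of_nonneg_right hδ1 (by positivity)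
    have h8 : 0 ≤ ρ * nn V ^ 2 := by positivity
    linarith
  · rw [fx_gam E hE A]
    have h6 := fx_cross_card A
    have h7 : ∑ x, ∑ y, (if x ∈ A ∧ y ∉ A then (1 : ℝ) else 0) =
        M + ∑ x, ∑ y, (if x ∈ A ∧ y ∉ A then gE E x y else 0) := by
      rw [hM, ← Finset.sum_add_distrib]
      refine Finset.sum_congr rfl fun x _ => ?_
      rw [← Finset.sum_add_distrib]
      refine Finset.sum_congr rfl fun y _ => ?_
      split_ifs <;> ring
    have h8 : ∑ x, ∑ y, gE E x y = nn V ^ 2 - N2 := by
      rw [hN2]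
      simp only [Finset.sum_sub_distrib]
      simp [nn]
      ring
    rw [h7, hAr] at h6
    rw [h8]
    have h9 : (r - 1 / 2) ^ 2 ≤ (3 * δ) ^ 2 := by
      rw [← sq_abs (r - 1 / 2)]
      exact pow_le_pow_left₀ (abs_nonneg _) d3 2
    have h10 : ∑ x, ∑ y, (if x ∈ A ∧ y ∉ A then gE E x y else 0) =
        (1 / 4 - (r - 1 / 2) ^ 2) * nn V ^ 2 - M := by
      linarith [h6]
    rw [h10]
    have hn2 : 0 < nn V ^ 2 := by positivity
    have h11 : (r - 1 / 2) ^ 2 * nn V ^ 2 ≤ (3 * δ) ^ 2 * nn V ^ 2 :=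
      mul_le_mul_of_nonneg_right h9 hn2.le
    have h12 : (15 * δ + 27 * δ ^ 2) * nn V ^ 2 ≤ ρ * nn V ^ 2 := by
      refine mul_le_mul_of_nonneg_right ?_ hn2.le
      have := mul_le_mul_of_nonneg_left hδ2 hδ0.le
      linarith
    linarith [h11, h12, hNn, hMn]

end F3.NE
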