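import Pool.Agent.F3.NEF.Stm

/-!
# Block NEF, row NA: conditioning on coordinates
-/

set_option autoImplicit false
set_option linter.unusedSectionVars false

namespace F3.NE

open Finset NWC NW F1 F1.Exact

section Pin

variable {V : Type} [Fintype V] [DecidableEq V] {m : ℕ}

theorem na_pw [Nonempty V] (S : Finset (Fin m)) (ω : Fin m → V) (l : Fin m) : PW (pw S ω l) := by
  unfold pw
  split_ifs
  · exact pw_pin _
  · exact pw_unif

/-- on the support of the pinned weight the pinned coordinates are the given ones -/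
theorem na_prodW_ne {S : Finset (Fin m)} {ω ψ : Fin m → V} (h : prodW (pw S ω) ψ ≠ 0)
    {l : Fin m} (hl : l ∈ S) : ψ l = ω l := by
  by_contra hne
  apply h
  unfold prodW
  apply Finset.prod_eq_zero (Finset.mem_univ l)
  unfold pw pin
  rw [if_pos hl, if_neg hne]

/-- resampling the coordinates outside `S ∪ T` -/
theorem na_resample [Nonempty V] (S T : Finset (Fin m)) (ω ψ : Fin m → V) :
    prodW (pw S ω) ψ = ∑ ω' : Fin m → V, prodW (pw S ω) ω' * prodW (pw (S ∪ T) ω') ψ := by
  have h := Finset.prod_univ_sum (fun _ : Fin m => (univ : Finset V))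
    (fun l a => pw S ω l a * (if l ∈ S ∪ T then pin a (ψ l) else unifW V (ψ l)))
  rw [Fintype.piFinset_univ] at h
  have h1 : ∀ ω' : Fin m → V, prodW (pw S ω) ω' * prodW (pw (S ∪ T) ω') ψ =
      ∏ l, (pw S ω l (ω' l) * (if l ∈ S ∪ T then pin (ω' l) (ψ l) else unifW V (ψ l))) := by
    intro ω'
    unfold prodW
    rw [← Finset.prod_mul_distrib]
    refine Finset.prod_congr rfl fun l _ => ?_
    congr 1
    by_cases hl : l ∈ S ∪ T
    · rw [if_pos hl]
      show (if l ∈ S ∪ T then pin (ω' l) else unifW V) (ψ l) = _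
      rw [if_pos hl]
    · rw [if_neg hl]
      show (if l ∈ S ∪ T then pin (ω' l) else unifW V) (ψ l) = _
      rw [if_neg hl]
  simp_rw [h1]
  rw [← h]
  unfold prodW
  refine Finset.prod_congr rfl fun l _ => ?_
  by_cases hl : l ∈ S ∪ T
  · simp only [if_pos hl, pin]
    rw [Finset.sum_eq_single (ψ l)]
    · rw [if_pos rfl, mul_one]
    · intro a _ ha
      rw [if_neg (Ne.symm ha), mul_zero]
    · intro h'
      exact absurd (Finset.mem_univ _) h'
  · simp only [if_neg hl]
    rw [← Finset.sum_mul, (na_pw S ω l).2, one_mul]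
    have hS : l ∉ S := fun h' => hl (Finset.mem_union_left T h')
    unfold pw
    rw [if_neg hS]

end Pin

/-- row NA -/
theorem pin_st : PinSt := by
  intro V _ _ _ m S T ω F c hF hc
  classical
  have hnn : ∀ ω' : Fin m → V, 0 ≤ prodW (pw S ω) ω' := (pw_prod (na_pw S ω)).1
  have h1 : Pr (prodW (pw S ω)) (fun ψ => F ψ ψ) =
      ∑ ω' : Fin m → V, prodW (pw S ω) ω' * Pr (prodW (pw (S ∪ T) ω')) (F ω') := by
    unfold Pr
    have h2 : ∀ ψ : Fin m → V, (if F ψ ψ then prodW (pw S ω) ψ else 0) =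
        ∑ ω' : Fin m → V, prodW (pw S ω) ω' *
          (if F ω' ψ then prodW (pw (S ∪ T) ω') ψ else 0) := by
      intro ψ
      have h3 : ∀ ω' : Fin m → V, prodW (pw S ω) ω' *
          (if F ω' ψ then prodW (pw (S ∪ T) ω') ψ else 0) =
          if F ψ ψ then prodW (pw S ω) ω' * prodW (pw (S ∪ T) ω') ψ else 0 := by
        intro ω'
        by_cases h0 : prodW (pw (S ∪ T) ω') ψ = 0
        · rw [h0]
          simp
        · have h4 : ∀ l ∈ T, ω' l = ψ l := fun l hl =>
            (na_prodW_ne h0 (Finset.mem_union_right S hl)).symm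
          have h5 := hF ω' ψ ψ h4
          by_cases h6 : F ψ ψ
          · rw [if_pos h6, if_pos (h5.2 h6)]
          · rw [if_neg h6, if_neg (fun h7 => h6 (h5.1 h7)), mul_zero]
      rw [Finset.sum_congr rfl fun ω' _ => h3 ω']
      by_cases h6 : F ψ ψ
      · simp only [if_pos h6]
        exact na_resample S T ω ψ
      · simp only [if_neg h6, Finset.sum_const_zero]
    rw [Finset.sum_congr rfl fun ψ _ => h2 ψ, Finset.sum_comm]
    exact Finset.sum_congr rfl fun ω' _ => by rw [Finset.mul_sum]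
  rw [h1]
  calc ∑ ω' : Fin m → V, prodW (pw S ω) ω' * Pr (prodW (pw (S ∪ T) ω')) (F ω')
      ≤ ∑ ω' : Fin m → V, prodW (pw S ω) ω' * c := by
        refine Finset.sum_le_sum fun ω' _ => ?_
        by_cases h0 : prodW (pw S ω) ω' = 0
        · rw [h0, zero_mul, zero_mul]
        · exact mul_le_mul_of_nonneg_left (hc ω' fun l hl => na_prodW_ne h0 hl) (hnn ω')
    _ = c := by rw [← Finset.sum_mul, (pw_prod (na_pw S ω)).2, one_mul]

end F3.NE
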