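import Pool.Agent.F3.NEF.Stm

/-!
# Block NEF: a bounded number of seeds determines an almost closed set up to few errors
-/

set_option autoImplicit false

namespace F3.NE

open Finset NWC

/-- the number of non-adjacent pairs across, as a sum over all pairs -/
private theorem sd_crs {m : ℕ} (g : Fin m → Fin m → ℝ) (A : Finset (Fin m)) :
    ST.crs g A = ∑ x, ∑ y, if x ∈ A ∧ y ∉ A then 1 - g x y else 0 := by
  classical
  unfold ST.crs
  have h1 : ∀ x, ∑ y, (if x ∈ A ∧ y ∉ A then 1 - g x y else 0) =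
      if x ∈ A then ∑ y ∈ Aᶜ, (1 - g x y) else 0 := by
    intro x
    by_cases hx : x ∈ A
    · rw [if_pos hx]
      have h2 : ∀ y, (if x ∈ A ∧ y ∉ A then 1 - g x y else 0) =
          if y ∈ Aᶜ then 1 - g x y else 0 := by
        intro y
        by_cases hy : y ∈ A <;> simp [hx, hy]
      rw [Finset.sum_congr rfl fun y _ => h2 y, Finset.sum_ite_mem, Finset.univ_inter]
    · rw [if_neg hx]
      exact Finset.sum_eq_zero fun y _ => by rw [if_neg (fun h => hx h.1)]
  rw [Finset.sum_congr rfl fun x _ => h1 x, Finset.sum_ite_mem, Finset.univ_inter]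
  refine Finset.sum_congr rfl fun x _ => ?_
  refine Finset.sum_congr ?_ fun _ _ => rfl
  ext y
  simp

/-- one good vertex is misclassified with small probability -/
private theorem sd_one {m q : ℕ} [Nonempty (Fin m)] (X : Fin m → ℝ) (hX : ∀ a, |X a| ≤ 1)
    (hmean : (m : ℝ) / 5 ≤ ∑ a, X a) :
    Pr (prodW (fun _ : Fin (q + 1) => unifW (Fin m))) (fun τ => ∑ l, X (τ l) ≤ 0) ≤
      Real.exp (-((q : ℝ) + 1) / 200) := by
  classical
  have hm : (0 : ℝ) < m := by
    have : 0 < m := Fin.pos_iff_nonempty.2 inferInstance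
    exact_mod_cast this
  have hpw : ∀ _ : Fin (q + 1), PW (unifW (Fin m)) := fun _ => pw_unif
  set Y : Fin m → ℝ := fun a => (1 + X a) / 2 with hY
  set μ : ℝ := (∑ a, X a) / m with hμ
  have hμ5 : 1 / 5 ≤ μ := by
    rw [hμ, le_div_iff₀ hm]
    linarith
  have hEx : Ex (unifW (Fin m)) Y = (1 + μ) / 2 := by
    unfold Ex unifW
    rw [← Finset.mul_sum, Fintype.card_fin, hY, ← Finset.sum_div, Finset.sum_add_distrib, hμ]
    simp only [Finset.sum_const, Finset.card_univ, Fintype.card_fin, nsmul_eq_mul, mul_one]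
    field_simp
  have h := hoeffding_lower hpw (univ : Finset (Fin (q + 1))) (fun _ => Y)
    (fun _ a => by
      have := (abs_le.1 (hX a)).1
      simp only [hY]
      linarith)
    (fun _ a => by
      have := (abs_le.1 (hX a)).2
      simp only [hY]
      linarith) ((q : ℝ) + 1) (by positivity)
    (by rw [Finset.card_univ, Fintype.card_fin]; push_cast; exact le_rfl)
    (((q : ℝ) + 1) * μ / 2) (by positivity)
  rw [hEx] at h
  refine (pr_mono (pw_prod hpw) (fun τ hτ => ?_)).trans (h.trans (Real.exp_le_exp.2 ?_))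
  · rw [Finset.sum_const, Finset.card_univ, Fintype.card_fin, nsmul_eq_mul]
    simp only [hY]
    rw [← Finset.sum_div, Finset.sum_add_distrib]
    simp only [Finset.sum_const, Finset.card_univ, Fintype.card_fin, nsmul_eq_mul, mul_one]
    push_cast
    nlinarith
  · have h1 : (((q : ℝ) + 1) * μ / 2) ^ 2 / (2 * ((q : ℝ) + 1)) = ((q : ℝ) + 1) * (μ ^ 2 / 8) := by
      field_simp
      ring
    rw [h1]
    have h2 : 1 / 25 ≤ μ ^ 2 := by nlinarith
    have h3 : (0 : ℝ) < (q : ℝ) + 1 := by positivity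
    nlinarith

theorem seed_st : SeedSt := by
  classical
  intro κ hκ
  obtain ⟨q, hq⟩ := exists_nat_ge (-200 * Real.log (κ / 2))
  have hδ0 : 0 < min (κ / 500) (1 / 100) := by positivity
  refine ⟨q + 1, min (κ / 500) (1 / 100), hδ0, ?_⟩
  intro m g A hm h01 hsym hcrs hdeg
  set δ : ℝ := min (κ / 500) (1 / 100) with hδ
  have hδ1 : δ ≤ κ / 500 := min_le_left _ _
  have hδ2 : δ ≤ 1 / 100 := min_le_right _ _
  have hm' : (0 : ℝ) < m := by exact_mod_cast hm
  have : Nonempty (Fin m) := ⟨⟨0, hm⟩⟩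
  have hg : ∀ x y, 0 ≤ 1 - g x y ∧ 1 - g x y ≤ 1 := by
    intro x y
    rcases h01 x y with h | h <;> rw [h] <;> norm_num
  set lam : Fin m → ℝ := fun y => if y ∈ A then 1 else -1 with hlam
  have hlam1 : ∀ y, lam y * lam y = 1 := by
    intro y
    simp only [hlam]
    split_ifs <;> norm_num
  have hlama : ∀ y, |lam y| = 1 := by
    intro y
    simp only [hlam]
    split_ifs <;> norm_num
  set cr : Fin m → ℝ := fun i => ∑ y, if (y ∈ A ↔ i ∈ A) then 0 else (1 - g i y) with hcr
  have hcr0 : ∀ i, 0 ≤ cr i := fun i => Finset.sum_nonneg fun y _ => by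
    split_ifs
    · exact le_rfl
    · exact (hg i y).1
  -- the sum of the crossing numbers
  have hcrsum : ∑ i, cr i = 2 * ST.crs g A := by
    have h1 : ∑ i, cr i = (∑ x, ∑ y, if x ∈ A ∧ y ∉ A then 1 - g x y else 0) +
        ∑ x, ∑ y, if y ∈ A ∧ x ∉ A then 1 - g x y else 0 := by
      rw [← Finset.sum_add_distrib]
      refine Finset.sum_congr rfl fun i _ => ?_
      rw [← Finset.sum_add_distrib]
      refine Finset.sum_congr rfl fun y _ => ?_
      by_cases hi : i ∈ A <;> by_cases hy : y ∈ A <;> simp [hi, hy]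
    have h2 : (∑ x, ∑ y, if y ∈ A ∧ x ∉ A then 1 - g x y else 0) =
        ∑ x, ∑ y, if x ∈ A ∧ y ∉ A then 1 - g x y else 0 := by
      rw [Finset.sum_comm]
      refine Finset.sum_congr rfl fun x _ => Finset.sum_congr rfl fun y _ => ?_
      rw [hsym y x]
    rw [h1, h2, ← sd_crs]
    ring
  -- the signed sum
  have hsum : ∀ i, ∑ y, lam i * lam y * (1 - g i y) = ∑ y, (1 - g i y) - 2 * cr i := by
    intro i
    rw [hcr]
    simp only
    rw [Finset.mul_sum, ← Finset.sum_sub_distrib]
    refine Finset.sum_congr rfl fun y _ => ?_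
    simp only [hlam]
    by_cases hi : i ∈ A <;> by_cases hy : y ∈ A <;> simp [hi, hy] <;> ring
  -- bad vertices
  set bad1 : Finset (Fin m) := univ.filter (fun x => ∑ y, (1 - g x y) < (1 / 4 - δ) * (m : ℝ))
    with hbad1
  set bad2 : Finset (Fin m) := univ.filter (fun x => (m : ℝ) / 100 < cr x) with hbad2
  have hb2 : (bad2.card : ℝ) ≤ 200 * δ * m := by
    have h1 : (bad2.card : ℝ) * ((m : ℝ) / 100) ≤ ∑ i, cr i := by
      calc (bad2.card : ℝ) * ((m : ℝ) / 100) = ∑ _i ∈ bad2, (m : ℝ) / 100 := by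
            rw [Finset.sum_const, nsmul_eq_mul]
        _ ≤ ∑ i ∈ bad2, cr i := Finset.sum_le_sum fun i hi => (Finset.mem_filter.1 hi).2.le
        _ ≤ ∑ i, cr i := Finset.sum_le_sum_of_subset_of_nonneg (Finset.subset_univ _)
            fun i _ _ => hcr0 i
    rw [hcrsum] at h1
    have h2 : (bad2.card : ℝ) * ((m : ℝ) / 100) ≤ 200 * δ * m * ((m : ℝ) / 100) := by
      nlinarith
    exact le_of_mul_le_mul_right h2 (by positivity)
  -- misclassification
  set w : (Fin (q + 1) → Fin m) → ℝ := prodW (fun _ : Fin (q + 1) => unifW (Fin m)) with hw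
  have hpw : PW w := pw_prod (fun _ => pw_unif)
  set mis : Fin m → (Fin (q + 1) → Fin m) → Prop := fun i τ => ¬ (i ∈ A ↔
      0 < ∑ l, (if τ l ∈ A then (1 : ℝ) else -1) * (1 - g i (τ l))) with hmis
  have hexp : Real.exp (-((q : ℝ) + 1) / 200) ≤ κ / 2 := by
    rw [← Real.exp_log (show 0 < κ / 2 by positivity)]
    refine Real.exp_le_exp.2 ?_
    linarith
  have hpr : ∀ i, Pr w (mis i) ≤ (if i ∈ bad1 ∪ bad2 then 1 else 0) + κ / 2 := by
    intro i
    by_cases hi : i ∈ bad1 ∪ bad2
    · rw [if_pos hi]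
      have := pr_le_one hpw (mis i)
      linarith
    · rw [if_neg hi, zero_add]
      refine le_trans ?_ hexp
      have h1 : ¬ ∑ y, (1 - g i y) < (1 / 4 - δ) * (m : ℝ) := fun h =>
        hi (Finset.mem_union_left _ (Finset.mem_filter.2 ⟨Finset.mem_univ _, h⟩))
      have h2 : ¬ (m : ℝ) / 100 < cr i := fun h =>
        hi (Finset.mem_union_right _ (Finset.mem_filter.2 ⟨Finset.mem_univ _, h⟩))
      rw [not_lt] at h1 h2
      have h3 := sd_one (q := q) (fun a => lam i * lam a * (1 - g i a)) (fun a => by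
        rw [abs_mul, abs_mul, hlama, hlama, one_mul, one_mul, abs_of_nonneg (hg i a).1]
        exact (hg i a).2) (by
        rw [hsum i]
        nlinarith)
      refine (pr_mono hpw (fun τ hτ => ?_)).trans h3
      simp only [hmis] at hτ
      have h4 : ∑ l, lam i * lam (τ l) * (1 - g i (τ l)) =
          lam i * ∑ l, (if τ l ∈ A then (1 : ℝ) else -1) * (1 - g i (τ l)) := by
        rw [Finset.mul_sum]
        exact Finset.sum_congr rfl fun l _ => by rw [mul_assoc]
      rw [h4]
      by_cases hiA : i ∈ A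
      · have h5 : lam i = 1 := if_pos hiA
        rw [h5, one_mul]
        by_contra h6
        exact hτ ⟨fun _ => not_le.1 h6, fun _ => hiA⟩
      · have h5 : lam i = -1 := if_neg hiA
        rw [h5]
        by_contra h6
        refine hτ ⟨fun h => absurd h hiA, fun h => ?_⟩
        exfalso
        linarith [not_le.1 h6]
  obtain ⟨τ, hτ⟩ := exists_le_ex (f := fun τ => ∑ i, if mis i τ then (1 : ℝ) else 0) hpw
  refine ⟨τ, ?_⟩
  have h1 : ((univ.filter (fun i => mis i τ)).card : ℝ) = ∑ i, if mis i τ then (1 : ℝ) else 0 := by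
    rw [Finset.card_filter]
    push_cast
    rfl
  have h2 : Ex w (fun τ => ∑ i, if mis i τ then (1 : ℝ) else 0) ≤ κ * m := by
    rw [ex_sum]
    calc ∑ i, Ex w (fun τ => if mis i τ then (1 : ℝ) else 0) = ∑ i, Pr w (mis i) :=
          Finset.sum_congr rfl fun i _ => (pr_eq_ex _ _).symm
      _ ≤ ∑ i, ((if i ∈ bad1 ∪ bad2 then 1 else 0) + κ / 2) :=
          Finset.sum_le_sum fun i _ => hpr i
      _ = ((bad1 ∪ bad2).card : ℝ) + m * (κ / 2) := by
          rw [Finset.sum_add_distrib, Finset.sum_ite_mem, Finset.univ_inter]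
          simp
      _ ≤ κ * m := by
          have h3 : ((bad1 ∪ bad2).card : ℝ) ≤ bad1.card + bad2.card := by
            exact_mod_cast Finset.card_union_le _ _
          nlinarith
  refine le_trans (le_of_eq ?_) (hτ.trans h2)
  rw [← h1]

end F3.NE
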