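import Pool.Agent.F3.NEF.Stm

/-!
# Block NEF, row NG: the samples avoid a sparse set of triples
-/

set_option autoImplicit false
set_option linter.unusedSectionVars false

namespace F3.NE

open Finset NWC NW F1 F1.Exact

theorem trip_st : TripSt := by
  classical
  intro V _ _ _ B κ m hκ hB i j x y
  have hpw := pw_pp i j x y
  set F : Fin m × Fin m × Fin m → (Fin m → V) → Prop := fun q ψ =>
    (q.1 ≠ q.2.1 ∧ q.1 ≠ q.2.2 ∧ q.2.1 ≠ q.2.2 ∧ q.2.2 ≠ i ∧ q.2.2 ≠ j) ∧
      ∃ T ∈ B, T.1 = {ψ q.1, ψ q.2.1, ψ q.2.2} with hF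
  have h1 : Pr (prodW (pp i j x y)) (fun ψ => ∃ a b c, ∃ T ∈ B, T.1 = {ψ a, ψ b, ψ c})
      ≤ Pr (prodW (pp i j x y)) (fun ψ => ∃ q, F q ψ) := by
    refine pr_mono (pw_prod hpw) ?_
    rintro ψ ⟨a, b, c, T, hT, h⟩
    have h3 : ({ψ a, ψ b, ψ c} : Finset V).card = 3 := by rw [← h]; exact T.2
    have hab : a ≠ b := by
      rintro rfl
      have := Finset.card_le_two (a := ψ a) (b := ψ c)
      rw [Finset.insert_idem] at h3
      omega
    have hac : a ≠ c := by
      rintro rfl
      have := Finset.card_le_two (a := ψ a) (b := ψ b)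
      have h4 : ({ψ a, ψ b, ψ a} : Finset V) = {ψ a, ψ b} := by
        ext v
        simp only [Finset.mem_insert, Finset.mem_singleton]
        tauto
      rw [h4] at h3
      omega
    have hbc : b ≠ c := by
      rintro rfl
      have := Finset.card_le_two (a := ψ a) (b := ψ b)
      have h4 : ({ψ a, ψ b, ψ b} : Finset V) = {ψ a, ψ b} := by
        ext v
        simp only [Finset.mem_insert, Finset.mem_singleton]
        tauto
      rw [h4] at h3
      omega
    by_cases hc : c ≠ i ∧ c ≠ j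
    · exact ⟨(a, b, c), ⟨hab, hac, hbc, hc.1, hc.2⟩, T, hT, h⟩
    by_cases hb : b ≠ i ∧ b ≠ j
    · refine ⟨(a, c, b), ⟨hac, hab, hbc.symm, hb.1, hb.2⟩, T, hT, ?_⟩
      rw [h]
      ext v
      simp only [Finset.mem_insert, Finset.mem_singleton]
      tauto
    by_cases ha : a ≠ i ∧ a ≠ j
    · refine ⟨(b, c, a), ⟨hbc, hab.symm, hac.symm, ha.1, ha.2⟩, T, hT, ?_⟩
      rw [h]
      ext v
      simp only [Finset.mem_insert, Finset.mem_singleton]
      tauto
    exfalso
    have hc' : c = i ∨ c = j := by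
      by_contra h0
      push Not at h0
      exact hc h0
    have hb' : b = i ∨ b = j := by
      by_contra h0
      push Not at h0
      exact hb h0
    have ha' : a = i ∨ a = j := by
      by_contra h0
      push Not at h0
      exact ha h0
    rcases ha' with rfl | rfl <;> rcases hb' with rfl | rfl <;> rcases hc' with rfl | rfl <;>
      first
      | exact hab rfl
      | exact hac rfl
      | exact hbc rfl
  refine h1.trans ((pr_exists_le' (pw_prod hpw) _).trans ?_)
  refine (Finset.sum_le_sum (g := fun _ => κ) fun q _ => ?_).trans (le_of_eq ?_)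
  · by_cases hq : q.1 ≠ q.2.1 ∧ q.1 ≠ q.2.2 ∧ q.2.1 ≠ q.2.2 ∧ q.2.2 ≠ i ∧ q.2.2 ≠ j
    · refine le_trans (pr_mono (pw_prod hpw) fun ψ hψ => hψ.2)
        (F2.XA.pr_triple B κ hB i j q.1 q.2.1 q.2.2 hq.1 hq.2.1 hq.2.2.1 hq.2.2.2.1
          hq.2.2.2.2 x y)
    · refine le_trans (pr_mono (F := fun _ => False) (pw_prod hpw) fun ψ hψ => hq hψ.1) ?_
      rw [pr_false]
      exact hκ
  · rw [Finset.sum_const, Finset.card_univ, Fintype.card_prod, Fintype.card_prod,
      Fintype.card_fin, nsmul_eq_mul]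
    push_cast
    ring

end F3.NE
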