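import Pool.Agent.F3.NEF.MainOf
import Pool.Agent.F3.NEF.Pin
import Pool.Agent.F3.NEF.Conc
import Pool.Agent.F3.NEF.Seed
import Pool.Agent.F3.NEF.Fix
import Pool.Agent.F3.NEF.Ext
import Pool.Agent.F3.NEF.Deg
import Pool.Agent.F3.NEF.Trip
import Pool.Agent.F3.NEF.Avg

/-!
# Block NEF: the theorem
-/

set_option autoImplicit false

namespace F3

/-- **Exact fractional decompositions with bounded weights of graphs which are not
near-extremal.** -/
theorem nef : NEFStatement :=
  NE.nef_of (NE.ext_st NE.pin_st NE.conc_st NE.seed_st NE.fix_st) NE.deg_st NE.trip_st NE.avg_st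

end F3
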