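import Pool.Agent.F3.NEF.Stm

/-!
# Block NEF: assembly of `NEFStatement` from the rows
-/

set_option autoImplicit false
set_option linter.unusedSectionVars false

namespace F3.NE

open Finset NWC NW F1 F1.Exact

section

variable {V : Type} [Fintype V] [DecidableEq V] {m : ℕ}

theorem pp_eq_pw (i j : Fin m) (x y : V) :
    pp i j x y = pw ({i, j} : Finset (Fin m)) (fun l => if l = i then x else y) := by
  funext l
  unfold pp pw
  by_cases h1 : l = i
  · simp [h1]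
  · by_cases h2 : l = j
    · have h3 : l ∈ ({i, j} : Finset (Fin m)) := by simp [h2]
      rw [if_neg h1, if_pos h2, if_pos h3]
      show pin y = pin (if l = i then x else y)
      rw [if_neg h1]
    · simp [h1, h2]

/-- a set of edges of small degree has few elements -/
theorem card_le_of_sm (F : Finset (Sym2 V)) (κ : ℝ) (hF : Sm κ F) :
    (F.card : ℝ) ≤ κ * nn V ^ 2 := by
  have h1 : F ⊆ (univ.biUnion (fun v : V => (nbr F v).image (fun w => s(v, w)))) := by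
    intro e he
    induction e using Sym2.ind with
    | _ x y =>
      rw [Finset.mem_biUnion]
      refine ⟨x, Finset.mem_univ _, Finset.mem_image.2 ⟨y, ?_, rfl⟩⟩
      unfold nbr
      exact Finset.mem_filter.2 ⟨Finset.mem_univ _, he⟩
  have h2 : F.card ≤ ∑ v : V, (nbr F v).card := by
    refine (Finset.card_le_card h1).trans (Finset.card_biUnion_le.trans ?_)
    exact Finset.sum_le_sum fun v _ => Finset.card_image_le
  have h3 : ((∑ v : V, (nbr F v).card : ℕ) : ℝ) ≤ ∑ _v : V, κ * nn V := by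
    rw [Nat.cast_sum]
    exact Finset.sum_le_sum fun v _ => hF v
  have h4 : ∑ _v : V, κ * nn V = κ * nn V ^ 2 := by
    rw [Finset.sum_const, Finset.card_univ, nsmul_eq_mul]
    unfold nn
    ring
  rw [← h4]
  refine le_trans ?_ h3
  exact_mod_cast h2

theorem ex_of_sdiff (E F : Finset (Sym2 V)) (ρ κ : ℝ) (hκ : κ ≤ ρ / 4) (hF : Sm κ F)
    (h : EX (ρ / 2) (E \ F)) (hρ : 0 < ρ) : EX ρ E := by
  have n0 : 0 ≤ nn V := by unfold nn; positivity
  obtain ⟨sd, h1, h2, h3⟩ := h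
  refine ⟨sd, ?_, ?_, ?_⟩
  · exact h1.trans (mul_le_mul_of_nonneg_right (by linarith) n0)
  · refine le_trans ?_ (h2.trans (mul_le_mul_of_nonneg_right (by linarith) (by positivity)))
    have : (Sd sd true ×ˢ Sd sd false).filter (fun p => s(p.1, p.2) ∉ E) ⊆
        (Sd sd true ×ˢ Sd sd false).filter (fun p => s(p.1, p.2) ∉ E \ F) := by
      intro p hp
      rw [Finset.mem_filter] at hp ⊢
      exact ⟨hp.1, fun h => hp.2 (Finset.mem_sdiff.1 h).1⟩
    exact_mod_cast Finset.card_le_card this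
  · have h4 : ∑ e ∈ E, gam sd e = ∑ e ∈ E \ F, gam sd e + ∑ e ∈ E ∩ F, gam sd e := by
      rw [← Finset.sum_union (Finset.disjoint_left.2 fun e he he' =>
        (Finset.mem_sdiff.1 he).2 (Finset.mem_inter.1 he').2), Finset.sdiff_union_inter]
    have h5 : ∑ e ∈ E ∩ F, gam sd e ≤ 2 * (F.card : ℤ) := by
      have h6 : ∑ e ∈ E ∩ F, gam sd e ≤ ∑ _e ∈ E ∩ F, (2 : ℤ) := by
        refine Finset.sum_le_sum fun e _ => ?_
        unfold gam
        split_ifs <;> norm_num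
      refine h6.trans ?_
      rw [Finset.sum_const, nsmul_eq_mul, mul_comm]
      have : (E ∩ F).card ≤ F.card := Finset.card_le_card Finset.inter_subset_right
      have : ((E ∩ F).card : ℤ) ≤ (F.card : ℤ) := by exact_mod_cast this
      linarith
    have h7 := card_le_of_sm F κ hF
    have h8 : ((∑ e ∈ E ∩ F, gam sd e : ℤ) : ℝ) ≤ 2 * (F.card : ℝ) := by exact_mod_cast h5
    rw [h4]
    push_cast at h3 h8 ⊢
    have h9 : κ * nn V ^ 2 ≤ ρ / 4 * nn V ^ 2 := mul_le_mul_of_nonneg_right hκ (by positivity)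
    linarith

end

/-- numbers: `m` large -/
theorem exists_m3 (η : ℝ) (hη : 0 < η) (m₀ : ℕ) : ∃ m : ℕ, m₀ ≤ m ∧ 2 ≤ m ∧ 6 ≤ 2 * η * (m : ℝ) ∧
    1 / (m : ℝ) ≤ η ∧ (m : ℝ) * Real.exp (-((2 * η) ^ 2 * (m : ℝ) / 8)) ≤ 1 / (4 * (m : ℝ)) := by
  obtain ⟨m, hm⟩ := exists_nat_ge (2 + (m₀ : ℝ) + 6 / η + 384 / η ^ 6)
  have h1 : 0 < 6 / η := by positivity
  have h2 : 0 < 384 / η ^ 6 := by positivity
  have h0 : (0 : ℝ) ≤ m₀ := by positivity
  have hm2 : (2 : ℝ) ≤ m := by linarith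
  have hm0 : (0 : ℝ) < m := by linarith
  have h3 : 6 / η ≤ (m : ℝ) := by linarith
  rw [div_le_iff₀ hη] at h3
  refine ⟨m, ?_, by exact_mod_cast hm2, by linarith, ?_, ?_⟩
  · have : (m₀ : ℝ) ≤ m := by linarith
    exact_mod_cast this
  · rw [div_le_iff₀ hm0]
    linarith
  · have h3 : 384 / η ^ 6 ≤ (m : ℝ) := by linarith
    rw [div_le_iff₀ (by positivity)] at h3
    obtain ⟨t, ht⟩ : ∃ t : ℝ, t = (2 * η) ^ 2 * (m : ℝ) / 8 := ⟨_, rfl⟩
    have ht0 : 0 < t := by rw [ht]; positivity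
    have h4 := Real.pow_div_factorial_le_exp t ht0.le 3
    have h5 : t ^ 3 / 6 ≤ Real.exp t := by
      have : ((Nat.factorial 3 : ℕ) : ℝ) = 6 := by norm_num [Nat.factorial]
      rw [this] at h4
      exact h4
    rw [← ht, Real.exp_neg, ← div_eq_mul_inv, div_le_iff₀ (Real.exp_pos _), div_mul_eq_mul_div,
      one_mul, le_div_iff₀ (by linarith)]
    refine le_trans ?_ h5
    rw [ht]
    have h7 : ((2 * η) ^ 2 * (m : ℝ) / 8) ^ 3 / 6
        = (m : ℝ) * (m : ℝ) * ((m : ℝ) * η ^ 6) / 48 := by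
      ring
    rw [h7, le_div_iff₀ (by norm_num)]
    nlinarith [mul_le_mul_of_nonneg_left h3 (by positivity : (0 : ℝ) ≤ (m : ℝ) * (m : ℝ))]

theorem nef_of (hX : ExtSt) (hD : DegSt) (hT : TripSt) (hV : AvgSt) : NEFStatement := by
  intro ρ hρ
  obtain ⟨ρ', ρ'0, m₀, HX⟩ := hX (ρ / 2) (by linarith)
  obtain ⟨η₁, η₁0, HR⟩ := ST.st_rob ρ' ρ'0
  obtain ⟨η, hη⟩ : ∃ η : ℝ, η = η₁ / 4 := ⟨_, rfl⟩
  have η0 : 0 < η := by rw [hη]; linarith
  obtain ⟨m, hm₀, hm2, hm6, hmη, hmx⟩ := exists_m3 η η0 m₀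
  have hm2' : (2 : ℝ) ≤ m := by exact_mod_cast hm2
  have hm0 : (0 : ℝ) < m := by linarith
  obtain ⟨κ, hκ⟩ : ∃ κ : ℝ, κ = min (1 / (4 * (m : ℝ) ^ 4)) (min η (ρ / 4)) := ⟨_, rfl⟩
  have κ0 : 0 < κ := by
    rw [hκ]
    exact lt_min (by positivity) (lt_min η0 (by linarith))
  have κ1 : κ ≤ 1 / (4 * (m : ℝ) ^ 4) := by rw [hκ]; exact min_le_left _ _
  have κ2 : κ ≤ η := by rw [hκ]; exact (min_le_right _ _).trans (min_le_left _ _)
  have κ3 : κ ≤ ρ / 4 := by rw [hκ]; exact (min_le_right _ _).trans (min_le_right _ _)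
  refine ⟨η, 2 * (m : ℝ), κ, η0, by linarith, κ0, 1, ?_⟩
  intro V _ _ E hE hn1 hdeg hnx F B hF hB
  classical
  have hne : Nonempty V := Fintype.card_pos_iff.1 (by omega)
  have n0 : 0 < nn V := by
    unfold nn
    exact_mod_cast Fintype.card_pos
  have hE' : NW.NL (E \ F) := fun e he => hE e (Finset.mem_sdiff.1 he).1
  have hnx' : ¬ EX (ρ / 2) (E \ F) := fun h => hnx (ex_of_sdiff E F ρ κ κ3 hF h hρ)
  have hdeg' : ∀ v, (3 / 4 - 2 * η) * nn V ≤ (NW.deg (E \ F) v : ℝ) := by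
    intro v
    have h1 : NW.deg E v ≤ NW.deg (E \ F) v + NW.deg F v := by
      unfold NW.deg
      refine le_trans (Finset.card_le_card ?_) (Finset.card_union_le _ _)
      intro w hw
      unfold nbr at hw ⊢
      rw [Finset.mem_union, Finset.mem_filter, Finset.mem_filter]
      by_cases h : s(v, w) ∈ F
      · exact Or.inr ⟨Finset.mem_univ _, h⟩
      · exact Or.inl ⟨Finset.mem_univ _, Finset.mem_sdiff.2 ⟨(Finset.mem_filter.1 hw).2, h⟩⟩
    have h2 : (NW.deg E v : ℝ) ≤ (NW.deg (E \ F) v : ℝ) + (NW.deg F v : ℝ) := by exact_mod_cast h1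
    have h3 := hF v
    have h4 := hdeg v
    have h5 : κ * nn V ≤ η * nn V := mul_le_mul_of_nonneg_right κ2 n0.le
    linarith
  obtain ⟨G, hG⟩ : ∃ G : (Fin m → V) → Prop, G = fun ψ =>
    (∀ k, ∑ l, (1 - gp (E \ F) ψ k l) ≤ (1 / 4 + 2 * (2 * η)) * (m : ℝ)) ∧
    ¬ ST.Ext ρ' (gp (E \ F) ψ) ∧ ¬ ∃ a b c, ∃ T ∈ B, T.1 = {ψ a, ψ b, ψ c} := ⟨_, rfl⟩
  refine hV V m (E \ F) B G hm2 hE' ?_ ?_ ?_
  · intro i j hij x y
    have hpw := pw_pp i j x y
    have p1 := hD V (E \ F) (2 * η) m (by linarith) hdeg' (by linarith) i j x y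
    have p2 : Pr (prodW (pp i j x y)) (fun ψ => ST.Ext ρ' (gp (E \ F) ψ)) ≤ 1 / (4 * (m : ℝ)) := by
      rw [pp_eq_pw]
      refine HX m hm₀ V (E \ F) hE' hnx' _ _ ?_
      exact Finset.card_le_two
    have p3 := hT V B κ m κ0.le hB i j x y
    have p4 : (m : ℝ) ^ 3 * κ ≤ 1 / (4 * (m : ℝ)) := by
      have : (m : ℝ) ^ 3 * κ ≤ (m : ℝ) ^ 3 * (1 / (4 * (m : ℝ) ^ 4)) :=
        mul_le_mul_of_nonneg_left κ1 (by positivity)
      refine this.trans (le_of_eq ?_)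
      field_simp
    have p5 : Pr (prodW (pp i j x y)) (fun ψ => ¬ G ψ) ≤
        Pr (prodW (pp i j x y)) (fun ψ =>
          (¬ ∀ k, ∑ l, (1 - gp (E \ F) ψ k l) ≤ (1 / 4 + 2 * (2 * η)) * (m : ℝ)) ∨
          (ST.Ext ρ' (gp (E \ F) ψ) ∨ ∃ a b c, ∃ T ∈ B, T.1 = {ψ a, ψ b, ψ c})) := by
      refine pr_mono (pw_prod hpw) ?_
      intro ψ h
      rw [hG] at h
      by_cases h1 : ∀ k, ∑ l, (1 - gp (E \ F) ψ k l) ≤ (1 / 4 + 2 * (2 * η)) * (m : ℝ)
      · right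
        by_contra h2
        exact h ⟨h1, fun h3 => h2 (Or.inl h3), fun h3 => h2 (Or.inr h3)⟩
      · exact Or.inl h1
    have p6 := pr_or (pw_prod hpw)
      (fun ψ => ¬ ∀ k, ∑ l, (1 - gp (E \ F) ψ k l) ≤ (1 / 4 + 2 * (2 * η)) * (m : ℝ))
      (fun ψ => ST.Ext ρ' (gp (E \ F) ψ) ∨ ∃ a b c, ∃ T ∈ B, T.1 = {ψ a, ψ b, ψ c})
    have p7 := pr_or (pw_prod hpw) (fun ψ => ST.Ext ρ' (gp (E \ F) ψ))
      (fun ψ => ∃ a b c, ∃ T ∈ B, T.1 = {ψ a, ψ b, ψ c})
    have p8 : 1 / (4 * (m : ℝ)) = (1 / (m : ℝ)) / 4 := by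
      field_simp
    have p9 : 0 < 1 / (m : ℝ) := by positivity
    linarith
  · intro ψ hψ a b c T hTB h
    rw [hG] at hψ
    exact hψ.2.2 ⟨a, b, c, T, hTB, h⟩
  · intro ψ hψ d ds d1
    rw [hG] at hψ
    have key := HR (Fin m) (gp (E \ F) ψ) (fun i j => d (ψ i) (ψ j))
      (by rw [Fintype.card_fin]; exact hm0)
      (fun i j => by
        unfold gp gE
        by_cases h : s(ψ i, ψ j) ∈ E \ F
        · right; rw [if_pos h]
        · left; rw [if_neg h])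
      (fun i j => by
        unfold gp gE
        rw [Sym2.eq_swap])
      (fun i j => ds _ _)
      (fun i j => (d1 _ _).trans (by linarith))
      (fun i => by
        rw [Fintype.card_fin]
        refine (hψ.1 i).trans (le_of_eq ?_)
        rw [hη]
        ring)
    rcases key with h | h
    · exact h
    · exact absurd h hψ.2.1

end F3.NE
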