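import Pool.Agent.F3.Worlds
import Pool.Agent.F2.ExactAvoid
import Pool.Agent.H56.ST.Rob

/-!
# Block NEF: exact fractional decompositions with weights `O(1/n)` of graphs which are not
near-extremal: statements of the rows
-/

set_option autoImplicit false
set_option linter.unusedSectionVars false

namespace F3.NE

open Finset NWC NW F1 F1.Exact

section Defs

variable {V : Type} [Fintype V] [DecidableEq V] {m : ℕ}

/-- indicator function of the edge set -/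
noncomputable def gE (E : Finset (Sym2 V)) (x y : V) : ℝ := if s(x, y) ∈ E then 1 else 0

/-- the pulled back graph -/
noncomputable def gp (E : Finset (Sym2 V)) (ψ : Fin m → V) (i j : Fin m) : ℝ := gE E (ψ i) (ψ j)

/-- the coordinates in `S` are pinned to the values of `ω`, the others are uniform -/
noncomputable def pw (S : Finset (Fin m)) (ω : Fin m → V) : Fin m → V → ℝ :=
  fun l => if l ∈ S then pin (ω l) else unifW V

/-- the statistics `(1/m^2) ∑ φ (ψ i) (ψ j)` is within `δ` of the average of `φ` -/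
def Near (δ : ℝ) (ψ : Fin m → V) (φ : V → V → ℝ) : Prop :=
  |∑ i, ∑ j, φ (ψ i) (ψ j) - (m : ℝ) ^ 2 * ((∑ x, ∑ y, φ x y) / nn V ^ 2)| ≤ δ * (m : ℝ) ^ 2

/-- the three test functions of a set `A` -/
noncomputable def tf (E : Finset (Sym2 V)) (A : Finset V) (k : Fin 3) (x y : V) : ℝ :=
  if k = 0 then (if x ∈ A then 1 else 0)
  else if k = 1 then (if x ∈ A ∧ y ∉ A then 1 - gE E x y else 0)
  else 1 - gE E x y

/-- the set of vertices classified by the seeds `u` with signs `sg` -/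
noncomputable def cl (E : Finset (Sym2 V)) {q : ℕ} (sg : Fin q → Bool) (u : Fin q → V) : Finset V :=
  univ.filter (fun v => 0 < ∑ l, (if sg l = true then (1 : ℝ) else -1) * (1 - gE E v (u l)))

end Defs

/-- row NA: conditioning on the values of the coordinates in `T` -/
def PinSt : Prop := ∀ (V : Type) [Fintype V] [DecidableEq V] [Nonempty V] (m : ℕ)
  (S T : Finset (Fin m)) (ω : Fin m → V) (F : (Fin m → V) → (Fin m → V) → Prop) (c : ℝ),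
  (∀ ω₁ ω₂ ψ, (∀ l ∈ T, ω₁ l = ω₂ l) → (F ω₁ ψ ↔ F ω₂ ψ)) →
  (∀ ω', (∀ l ∈ S, ω' l = ω l) → Pr (prodW (pw (S ∪ T) ω')) (F ω') ≤ c) →
  Pr (prodW (pw S ω)) (fun ψ => F ψ ψ) ≤ c

/-- row NB: concentration of the statistics -/
def ConcSt : Prop := ∀ (V : Type) [Fintype V] [DecidableEq V] [Nonempty V] (m : ℕ)
  (S : Finset (Fin m)) (ω : Fin m → V) (φ : V → V → ℝ) (δ : ℝ),
  (∀ x y, |φ x y| ≤ 1) → 0 < δ → 8 * ((S.card : ℝ) + 1) ≤ δ * (m : ℝ) →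
  Pr (prodW (pw S ω)) (fun ψ => ¬ Near δ ψ φ) ≤ 2 * Real.exp (-(δ ^ 2 * (m : ℝ) / 128))

/-- row NC: a bounded number of seeds determines an almost closed set up to few errors -/
def SeedSt : Prop := ∀ κ : ℝ, 0 < κ → ∃ (q : ℕ) (δ : ℝ), 0 < δ ∧
  ∀ (m : ℕ) (g : Fin m → Fin m → ℝ) (A : Finset (Fin m)), 0 < m →
    (∀ x y, g x y = 0 ∨ g x y = 1) → (∀ x y, g x y = g y x) →
    ST.crs g A ≤ δ * (m : ℝ) ^ 2 →
    ((univ.filter (fun x => ∑ y, (1 - g x y) < (1 / 4 - δ) * (m : ℝ))).card : ℝ) ≤ δ * (m : ℝ) →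
    ∃ τ : Fin q → Fin m, ((univ.filter (fun i => ¬ (i ∈ A ↔
      0 < ∑ l, (if τ l ∈ A then (1 : ℝ) else -1) * (1 - g i (τ l))))).card : ℝ) ≤ κ * (m : ℝ)

/-- row ND: a representative sample of a near-extremal kind shows that the graph is
near-extremal -/
def FixSt : Prop := ∀ ρ : ℝ, 0 < ρ → ∃ δ : ℝ, 0 < δ ∧
  ∀ (V : Type) [Fintype V] [DecidableEq V] [Nonempty V] (E : Finset (Sym2 V)) (m : ℕ)
    (ψ : Fin m → V) (A : Finset V) (A' : Finset (Fin m)), NW.NL E → 0 < m →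
    |(A'.card : ℝ) - (m : ℝ) / 2| ≤ δ * (m : ℝ) → ST.crs (gp E ψ) A' ≤ δ * (m : ℝ) ^ 2 →
    ((univ.filter (fun i => ∑ j, (1 - gp E ψ i j) < (1 / 4 - δ) * (m : ℝ))).card : ℝ)
      ≤ δ * (m : ℝ) →
    ((univ.filter (fun i => ¬ (i ∈ A' ↔ ψ i ∈ A))).card : ℝ) ≤ δ * (m : ℝ) →
    (∀ k, Near δ ψ (tf E A k)) → EX ρ E

/-- row NE: the samples of a graph which is not near-extremal are not near-extremal -/
def ExtSt : Prop := ∀ ρ : ℝ, 0 < ρ → ∃ ρ' : ℝ, 0 < ρ' ∧ ∃ m₀ : ℕ, ∀ m : ℕ, m₀ ≤ m →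
  ∀ (V : Type) [Fintype V] [DecidableEq V] [Nonempty V] (E : Finset (Sym2 V)), NW.NL E →
    ¬ EX ρ E → ∀ (S : Finset (Fin m)) (ω : Fin m → V), S.card ≤ 2 →
      Pr (prodW (pw S ω)) (fun ψ => ST.Ext ρ' (gp E ψ)) ≤ 1 / (4 * (m : ℝ))

/-- row NF: the degrees of the samples -/
def DegSt : Prop := ∀ (V : Type) [Fintype V] [DecidableEq V] [Nonempty V] (E : Finset (Sym2 V))
  (η : ℝ) (m : ℕ), 0 < η → (∀ v, (3 / 4 - η) * nn V ≤ (NW.deg E v : ℝ)) → 6 ≤ η * (m : ℝ) →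
  ∀ (i j : Fin m) (x y : V), Pr (prodW (pp i j x y))
    (fun ψ => ¬ ∀ k, ∑ l, (1 - gp E ψ k l) ≤ (1 / 4 + 2 * η) * (m : ℝ))
      ≤ (m : ℝ) * Real.exp (-(η ^ 2 * (m : ℝ) / 8))

/-- row NG: the samples avoid the sparse set of triples -/
def TripSt : Prop := ∀ (V : Type) [Fintype V] [DecidableEq V] [Nonempty V] (B : Finset (Tri V))
  (κ : ℝ) (m : ℕ), 0 ≤ κ → SmT κ B → ∀ (i j : Fin m) (x y : V), Pr (prodW (pp i j x y))
    (fun ψ => ∃ a b c, ∃ T ∈ B, T.1 = {ψ a, ψ b, ψ c}) ≤ (m : ℝ) ^ 3 * κ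

/-- row NH: average over the good maps -/
def AvgSt : Prop := ∀ (V : Type) [Fintype V] [DecidableEq V] [Nonempty V] (m : ℕ)
  (E : Finset (Sym2 V)) (B : Finset (Tri V)) (Gd : (Fin m → V) → Prop), 2 ≤ m → NW.NL E →
  (∀ i j, i ≠ j → ∀ x y, Pr (prodW (pp i j x y)) (fun ψ => ¬ Gd ψ) ≤ 1 / (m : ℝ)) →
  (∀ ψ, Gd ψ → ∀ a b c, ∀ T ∈ B, T.1 ≠ {ψ a, ψ b, ψ c}) →
  (∀ ψ, Gd ψ → ∀ d : V → V → ℝ, (∀ x y, d x y = d y x) →
    (∀ x y, |d x y - 1| ≤ 1 / (m : ℝ)) →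
    ST.HasDec (gp E ψ) (fun i j => d (ψ i) (ψ j))) →
  Frac (2 * (m : ℝ)) (fun _ => True) E B

end F3.NE
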